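import Pool.Agent.Lib.H57F.R1
import Pool.Agent.Lib.H30D.S
import Pool.Agent.Lib.H75V.T3
import Pool.Agent.Lib.H36R.CP

/-!
# H4TF, file L2: the poset of the uncoverable or 2-separated sets below a virtually connected set
-/

set_option autoImplicit false
set_option linter.unusedSectionVars false

namespace H4TF

open Finset H98P H63F H30F H98M

variable {V : Type*} [Fintype V] [DecidableEq V]

/-- `{x, y}` separates two vertices of `W`. -/
def Sep (G : Finset (Sym2 V)) (x y : V) (W : Finset V) : Prop :=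
  ∃ C D : Finset V, Disjoint C D ∧ C ∪ D = (univ.erase x).erase y ∧ (∀ a ∈ C, ∀ b ∈ D, s(a, b) ∉ G) ∧
    (W ∩ C).Nonempty ∧ (W ∩ D).Nonempty

/-- `W` is separated by two vertices outside `W`. -/
def X2 (G : Finset (Sym2 V)) (W : Finset V) : Prop :=
  ∃ x y, x ≠ y ∧ x ∉ W ∧ y ∉ W ∧ Sep G x y W

/-- No 2-cut crosses `{x, y}`. -/
def Unc (G : Finset (Sym2 V)) (x y : V) : Prop :=
  ∀ u v, u ≠ x → u ≠ y → v ≠ x → v ≠ y → Disc ((univ.erase u).erase v) G → ¬ Sep G x y {u, v}

/-- A component of `G - M` whose neighbours are exactly `a` and `b`. -/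
def Link (G : Finset (Sym2 V)) (M : Finset V) (a b : V) : Prop :=
  ∃ B : Finset V, B.Nonempty ∧ Disjoint B M ∧ ¬ Disc B G ∧ a ∉ B ∧ b ∉ B ∧ (∃ u ∈ B, s(u, a) ∈ G) ∧
    (∃ u ∈ B, s(u, b) ∈ G) ∧ (∀ u ∈ B, ∀ w, w ∉ B → s(u, w) ∈ G → w = a ∨ w = b)

/-- `M` is connected by the edges and the links. -/
def VConn (G : Finset (Sym2 V)) (M : Finset V) : Prop :=
  ∀ C D : Finset V, C ∪ D = M → Disjoint C D → C.Nonempty → D.Nonempty →
    ∃ a ∈ C, ∃ b ∈ D, s(a, b) ∈ G ∨ Link G M a b

theorem Link.symm {G : Finset (Sym2 V)} {M : Finset V} {a b : V} (h : Link G M a b) : Link G M b a := by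
  obtain ⟨B, h1, h2, h3, h4, h5, h6, h7, h8⟩ := h
  exact ⟨B, h1, h2, h3, h5, h4, h7, h6, fun u hu w hw h => (h8 u hu w hw h).symm⟩

theorem Link.anti {G : Finset (Sym2 V)} {M N : Finset V} {a b : V} (h : Link G M a b) (hN : N ⊆ M) :
    Link G N a b := by
  obtain ⟨B, h1, h2, h3, h4, h5, h6, h7, h8⟩ := h
  exact ⟨B, h1, disjoint_of_subset_right hN h2, h3, h4, h5, h6, h7, h8⟩

theorem Sep.symm {G : Finset (Sym2 V)} {x y : V} {W : Finset V} (h : Sep G x y W) : Sep G y x W := by
  obtain ⟨C, D, h1, h2, h3⟩ := h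
  refine ⟨C, D, h1, ?_, h3⟩
  rw [h2]
  ext z
  simp only [mem_erase, mem_univ, and_true]
  tauto

theorem Sep.mono {G : Finset (Sym2 V)} {x y : V} {W W' : Finset V} (h : Sep G x y W) (hW : W ⊆ W') :
    Sep G x y W' := by
  obtain ⟨C, D, h1, h2, h3, h4, h5⟩ := h
  exact ⟨C, D, h1, h2, h3, h4.mono (inter_subset_inter_right hW), h5.mono (inter_subset_inter_right hW)⟩

/-- In a graph without cut vertex a set whose neighbours are in `{x, y}` has the neighbour `y`. -/
theorem nb {G : Finset (Sym2 V)} (hcut : ∀ z, ¬ Disc (univ.erase z) G) {S : Finset V} {x y : V}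
    (hxy : x ≠ y) (hS : S.Nonempty) (hx : x ∉ S) (hy : y ∉ S)
    (hN : ∀ u ∈ S, ∀ w, w ∉ S → s(u, w) ∈ G → w = x ∨ w = y) : ∃ u ∈ S, s(u, y) ∈ G := by
  by_contra h
  push Not at h
  refine hcut x ⟨S, univ.erase x \ S, hS, ⟨y, ?_⟩, disjoint_sdiff, ?_, ?_⟩
  · simp only [mem_sdiff, mem_erase, mem_univ, and_true]
    exact ⟨hxy.symm, hy⟩
  · refine union_sdiff_of_subset fun z hz => ?_
    simp only [mem_erase, mem_univ, and_true]
    exact fun e => hx (e ▸ hz)
  · intro a ha b hb hab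
    simp only [mem_sdiff, mem_erase, mem_univ, and_true] at hb
    rcases hN a ha b hb.2 hab with e | e
    · exact hb.1 e
    · exact h a ha (e ▸ hab)

/-- The component of `d` in `G[D]`. -/
theorem comp (G : Finset (Sym2 V)) {D : Finset V} {d : V} (hd : d ∈ D) :
    ∃ B ⊆ D, d ∈ B ∧ ¬ Disc B G ∧ ∀ u ∈ B, ∀ w ∈ D, w ∉ B → s(u, w) ∉ G := by
  obtain ⟨B, hB, hmin⟩ := (D.powerset.filter fun B => d ∈ B ∧ ∀ u ∈ B, ∀ w ∈ D, w ∉ B → s(u, w) ∉ G).exists_minimal
    ⟨D, mem_filter.2 ⟨mem_powerset_self D, hd, fun u _ w hw hw' => absurd hw hw'⟩⟩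
  obtain ⟨hBD, hdB, hBn⟩ := mem_filter.1 hB
  rw [mem_powerset] at hBD
  refine ⟨B, hBD, hdB, ?_, hBn⟩
  rintro ⟨C', D', hC, hD, hdis, hu, hn⟩
  have hCB : C' ⊆ B := hu ▸ subset_union_left
  have hDB : D' ⊆ B := hu ▸ subset_union_right
  have key : ∀ C' D' : Finset V, D'.Nonempty → Disjoint C' D' → C' ∪ D' = B →
      (∀ x ∈ C', ∀ y ∈ D', s(x, y) ∉ G) → d ∉ C' := by
    intro C' D' hD hdis hu hn hdC
    have hCB : C' ⊆ B := hu ▸ subset_union_left
    have hDB : D' ⊆ B := hu ▸ subset_union_right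
    have h1 : C' ∈ D.powerset.filter fun B => d ∈ B ∧ ∀ u ∈ B, ∀ w ∈ D, w ∉ B → s(u, w) ∉ G := by
      refine mem_filter.2 ⟨mem_powerset.2 (hCB.trans hBD), hdC, fun u hu' w hw hwC => ?_⟩
      by_cases hwB : w ∈ B
      · rw [← hu, mem_union] at hwB
        exact hn u hu' w (hwB.resolve_left hwC)
      · exact hBn u (hCB hu') w hw hwB
    have h2 := hmin h1 hCB
    obtain ⟨z, hz⟩ := hD
    exact disjoint_left.1 hdis (h2 (hDB hz)) hz
  have hd' : d ∈ C' ∪ D' := hu ▸ hdB
  rcases mem_union.1 hd' with h | h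
  · exact key C' D' hD hdis hu hn h
  · exact key D' C' hC hdis.symm (by rw [union_comm, hu]) (fun x hx y hy hxy => hn y hy x hx (by rwa [Sym2.eq_swap])) h

/-- If a connected set avoids `x, y` it lies on one side. -/
theorem one_side {G : Finset (Sym2 V)} {B C D : Finset V} (hB : ¬ Disc B G) (hdis : Disjoint C D)
    (hBC : B ⊆ C ∪ D) (hn : ∀ a ∈ C, ∀ b ∈ D, s(a, b) ∉ G) {u : V} (hu : u ∈ B) (huC : u ∈ C) : B ⊆ C := by
  by_contra h
  obtain ⟨z, hz, hzC⟩ := not_subset.1 h
  refine hB ⟨B ∩ C, B ∩ D, ⟨u, mem_inter.2 ⟨hu, huC⟩⟩, ⟨z, mem_inter.2 ⟨hz, ?_⟩⟩, ?_, ?_, ?_⟩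
  · exact (mem_union.1 (hBC hz)).resolve_left hzC
  · exact disjoint_of_subset_left inter_subset_right (disjoint_of_subset_right inter_subset_right hdis)
  · rw [← inter_union_distrib_left]
    exact inter_eq_left.2 hBC
  · intro a ha b hb
    exact hn a (mem_inter.1 ha).2 b (mem_inter.1 hb).2

/-- A split of `G - x - y`. -/
structure Spl (G : Finset (Sym2 V)) (x y : V) (C D : Finset V) : Prop where
  ne : x ≠ y
  dis : Disjoint C D
  un : C ∪ D = (univ.erase x).erase y
  no : ∀ a ∈ C, ∀ b ∈ D, s(a, b) ∉ G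

namespace Spl

variable {G : Finset (Sym2 V)} {x y : V} {C D : Finset V}

theorem swap (h : Spl G x y C D) : Spl G x y D C :=
  ⟨h.ne, h.dis.symm, by rw [union_comm, h.un], fun a ha b hb hab => h.no b hb a ha (by rwa [Sym2.eq_swap])⟩

theorem swap2 (h : Spl G x y C D) : Spl G y x C D :=
  ⟨h.ne.symm, h.dis, by
    rw [h.un]
    ext z
    simp only [mem_erase, mem_univ, and_true]
    tauto, h.no⟩

theorem mem (h : Spl G x y C D) (z : V) : z ∈ C ∨ z ∈ D ∨ z = x ∨ z = y := by
  by_cases h1 : z = x ∨ z = y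
  · tauto
  · push Not at h1
    have h2 : z ∈ C ∪ D := by
      rw [h.un]
      simp only [mem_erase, mem_univ, and_true]
      exact ⟨h1.2, h1.1⟩
    rcases mem_union.1 h2 with h3 | h3 <;> tauto

theorem xC (h : Spl G x y C D) : x ∉ C := by
  intro hx
  have h2 : x ∈ C ∪ D := mem_union_left _ hx
  rw [h.un] at h2
  simp at h2

theorem yC (h : Spl G x y C D) : y ∉ C := h.swap2.xC

theorem xD (h : Spl G x y C D) : x ∉ D := h.swap.xC

theorem yD (h : Spl G x y C D) : y ∉ D := h.swap.yC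

theorem CD (h : Spl G x y C D) {z : V} (hz : z ∈ C) : z ∉ D := disjoint_left.1 h.dis hz

theorem DC (h : Spl G x y C D) {z : V} (hz : z ∈ D) : z ∉ C := disjoint_right.1 h.dis hz

end Spl

theorem disc_of_sep {G : Finset (Sym2 V)} {x y : V} {W : Finset V} (h : Sep G x y W) :
    Disc ((univ.erase x).erase y) G := by
  obtain ⟨C, D, h1, h2, h3, h4, h5⟩ := h
  exact ⟨C, D, h4.mono inter_subset_right, h5.mono inter_subset_right, h1, h2, h3⟩

/-- An uncrossed cut: a cut with a vertex `u` in `D` does not separate a part of `C + x + y`. -/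
theorem no_sep {G : Finset (Sym2 V)} (hcut : ∀ z, ¬ Disc (univ.erase z) G) {x y : V} {C D : Finset V}
    (hs : Spl G x y C D) (hU : Unc G x y) (hC : C.Nonempty) {W : Finset V} (hW : W ⊆ C ∪ {x, y})
    {u v : V} (hu : u ∈ D) : ¬ Sep G u v W := by
  intro hsep
  have hdisc := disc_of_sep hsep
  obtain ⟨C', D', h1, h2, h3, h4, h5⟩ := hsep
  have hux : u ≠ x := fun e => hs.xD (e ▸ hu)
  have huy : u ≠ y := fun e => hs.yD (e ▸ hu)
  by_cases hv : v ∈ C
  · refine hU u v hux huy (fun e => hs.xC (e ▸ hv)) (fun e => hs.yC (e ▸ hv)) hdisc ?_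
    exact ⟨C, D, hs.dis, hs.un, hs.no, ⟨v, by simp [hv]⟩, ⟨u, by simp [hu]⟩⟩
  · -- one part contains all of `C`
    have huv' : u ∉ C' ∪ D' := by rw [h2]; simp
    have hvv' : v ∉ C' ∪ D' := by rw [h2]; simp
    have hmem : ∀ z, z ≠ u → z ≠ v → z ∈ C' ∨ z ∈ D' := by
      intro z hz1 hz2
      rw [← mem_union, h2]
      simp [hz1, hz2]
    have key : ∀ (x y : V), Spl G x y C D → ∀ C' D' : Finset V, Disjoint C' D' →
        C' ∪ D' = (univ.erase u).erase v → (∀ a ∈ C', ∀ b ∈ D', s(a, b) ∉ G) → x ∈ C' → C ⊆ C' := by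
      intro x y hs C' D' h1 h2 h3 hxC
      by_contra hcon
      obtain ⟨c, hc, hcC⟩ := not_subset.1 hcon
      have hmem' : ∀ z, z ∈ C → z ∈ C' ∨ z ∈ D' := by
        intro z hz
        rw [← mem_union, h2]
        simp only [mem_erase, mem_univ, and_true]
        exact ⟨fun e => hv (e ▸ hz), fun e => hs.DC hu (e ▸ hz)⟩
      have hcD : c ∈ D' := (hmem' c hc).resolve_left hcC
      obtain ⟨w, hw, hwx⟩ := nb hcut (S := C ∩ D') (x := y) (y := x) hs.ne.symm ⟨c, mem_inter.2 ⟨hc, hcD⟩⟩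
        (fun h => hs.yC (mem_inter.1 h).1) (fun h => hs.xC (mem_inter.1 h).1) (by
          intro a ha w hw haw
          rw [mem_inter] at ha
          rcases hs.mem w with h | h | h | h
          · rcases hmem' w h with h' | h'
            · exact absurd (by rwa [Sym2.eq_swap]) (h3 w h' a ha.2)
            · exact absurd (mem_inter.2 ⟨h, h'⟩) hw
          · exact absurd haw (hs.no a ha.1 w h)
          · exact Or.inr h
          · exact Or.inl h)
      exact h3 x hxC w (mem_inter.1 hw).2 (by rwa [Sym2.eq_swap])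
    have h3' : ∀ a ∈ D', ∀ b ∈ C', s(a, b) ∉ G := fun a ha b hb hab =>
      h3 b hb a ha (by rwa [Sym2.eq_swap])
    have h2' : D' ∪ C' = (univ.erase u).erase v := by rw [union_comm, h2]
    obtain ⟨c, hc⟩ := hC
    -- main argument, for a named vertex `x ≠ v`
    have main : ∀ (x y : V), Spl G x y C D → W ⊆ C ∪ {x, y} → x ≠ u → y ≠ u → x ≠ v → False := by
      intro x y hs hW hxu hyu hxv
      have aux : ∀ C' D' : Finset V, Disjoint C' D' → C' ∪ D' = (univ.erase u).erase v →
          (∀ a ∈ C', ∀ b ∈ D', s(a, b) ∉ G) → (∀ a ∈ D', ∀ b ∈ C', s(a, b) ∉ G) → x ∈ C' →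
          (W ∩ D').Nonempty → False := by
        intro C' D' h1 h2 h3 h3' hx h5
        have hCC := key x y hs C' D' h1 h2 h3 hx
        obtain ⟨n, hn⟩ := h5
        rw [mem_inter] at hn
        have hnn := hW hn.1
        simp only [mem_union, mem_insert, mem_singleton] at hnn
        rcases hnn with h | h | h
        · exact disjoint_left.1 h1 (hCC h) hn.2
        · exact disjoint_left.1 h1 hx (h ▸ hn.2)
        · have hyD : y ∈ D' := h ▸ hn.2
          have := key y x hs.swap2 D' C' h1.symm (by rw [union_comm, h2]) h3' hyD hc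
          exact disjoint_left.1 h1 (hCC hc) this
      rcases hmem x hxu hxv with h | h
      · exact aux C' D' h1 h2 h3 h3' h h5
      · exact aux D' C' h1.symm h2' h3' h3 h h4
    by_cases hxv : x = v
    · refine main y x hs.swap2 ?_ huy.symm hux.symm ?_
      · rwa [pair_comm]
      · exact fun e => hs.ne (hxv.trans e.symm)
    · exact main x y hs hW hux.symm huy.symm hxv

theorem no_sep' {G : Finset (Sym2 V)} (hcut : ∀ z, ¬ Disc (univ.erase z) G) {x y : V} {C D : Finset V}
    (hs : Spl G x y C D) (hU : Unc G x y) (hC : C.Nonempty) {W : Finset V} (hW : W ⊆ C ∪ {x, y})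
    {u v : V} (hsep : Sep G u v W) : u ∉ D ∧ v ∉ D :=
  ⟨fun h => no_sep hcut hs hU hC hW h hsep, fun h => no_sep hcut hs hU hC hW h hsep.symm⟩

/-- The side of a set which is not 2-separated is not 2-separated. -/
theorem X2_side {G : Finset (Sym2 V)} (hcut : ∀ z, ¬ Disc (univ.erase z) G) {x y : V} {C D : Finset V}
    (hs : Spl G x y C D) (hU : Unc G x y) (hC : C.Nonempty) {M : Finset V} (hM : ¬ X2 G M) :
    ¬ X2 G (M ∩ (C ∪ {x, y})) := by
  rintro ⟨u, v, huv, hu, hv, hsep⟩
  obtain ⟨h1, h2⟩ := no_sep' hcut hs hU hC inter_subset_right hsep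
  have key : ∀ z, z ∉ D → z ∉ M ∩ (C ∪ {x, y}) → z ∉ M := by
    intro z hz hz' hzM
    refine hz' (mem_inter.2 ⟨hzM, ?_⟩)
    rcases hs.mem z with h | h | h | h
    · exact mem_union_left _ h
    · exact absurd h hz
    · simp [h]
    · simp [h]
  exact hM ⟨u, v, huv, key u h1 hu, key v h2 hv, hsep.mono inter_subset_left⟩

theorem Unc.symm {G : Finset (Sym2 V)} {x y : V} (h : Unc G x y) : Unc G y x :=
  fun u v h1 h2 h3 h4 h5 h6 => h u v h2 h1 h4 h3 h5 h6.symm

/-- The side of a virtually connected set. -/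
theorem vconn_side {G : Finset (Sym2 V)} (hcut : ∀ z, ¬ Disc (univ.erase z) G) {x y : V} {C D : Finset V}
    (hs : Spl G x y C D) (hU : Unc G x y) {M : Finset V} (hD : (M ∩ D).Nonempty)
    (hxy : x ∈ M ∨ y ∈ M) (hv : VConn G M) : VConn G (M ∩ (C ∪ {x, y})) := by
  obtain ⟨d, hd⟩ := hD
  obtain ⟨hdM, hdD⟩ := mem_inter.1 hd
  obtain ⟨K, hKD, hdK, hK, hKn⟩ := comp G hdD
  -- neighbours of `K`
  have hKN : ∀ u ∈ K, ∀ w, w ∉ K → s(u, w) ∈ G → w = x ∨ w = y := by
    intro u hu w hw huw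
    rcases hs.mem w with h | h | h | h
    · exact absurd (by rwa [Sym2.eq_swap]) (hs.no w h u (hKD hu))
    · exact absurd huw (hKn u hu w h hw)
    · exact Or.inl h
    · exact Or.inr h
  have hxK : x ∉ K := fun h => hs.xD (hKD h)
  have hyK : y ∉ K := fun h => hs.yD (hKD h)
  have hKx : ∃ u ∈ K, s(u, x) ∈ G := nb hcut hs.ne.symm ⟨d, hdK⟩ hyK hxK fun u hu w hw h => (hKN u hu w hw h).symm
  have hKy : ∃ u ∈ K, s(u, y) ∈ G := nb hcut hs.ne ⟨d, hdK⟩ hxK hyK hKN
  have hlink : Link G (M ∩ (C ∪ {x, y})) x y := by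
    refine ⟨K, ⟨d, hdK⟩, ?_, hK, hxK, hyK, hKx, hKy, hKN⟩
    rw [disjoint_left]
    intro z hz hz'
    rw [mem_inter, mem_union, mem_insert, mem_singleton] at hz'
    rcases hz'.2 with h | h | h
    · exact hs.DC (hKD hz) h
    · exact hxK (h ▸ hz)
    · exact hyK (h ▸ hz)
  -- the common step: `P` contains `{x, y} ∩ M`
  have step : ∀ P Q : Finset V, P ∪ Q = M ∩ (C ∪ {x, y}) → Disjoint P Q → Q.Nonempty → P.Nonempty →
      (x ∈ M → x ∈ P) → (y ∈ M → y ∈ P) →
      ∃ a ∈ P, ∃ b ∈ Q, s(a, b) ∈ G ∨ Link G (M ∩ (C ∪ {x, y})) a b := by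
    intro P Q hPQ hdis hQ hP hxP hyP
    have hPM : P ⊆ M := fun z hz => (mem_inter.1 (hPQ ▸ mem_union_left Q hz)).1
    have hQM : Q ⊆ M := fun z hz => (mem_inter.1 (hPQ ▸ mem_union_right P hz)).1
    have hPC : P ⊆ C ∪ {x, y} := fun z hz => (mem_inter.1 (hPQ ▸ mem_union_left Q hz)).2
    have hQC : Q ⊆ C := by
      intro z hz
      have h1 := (mem_inter.1 (hPQ ▸ mem_union_right P hz)).2
      rw [mem_union, mem_insert, mem_singleton] at h1
      rcases h1 with h | h | h
      · exact h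
      · exact absurd hz (disjoint_left.1 hdis (h ▸ hxP (h ▸ hQM hz)))
      · exact absurd hz (disjoint_left.1 hdis (h ▸ hyP (h ▸ hQM hz)))
    have hun : P ∪ (M ∩ D) ∪ Q = M := by
      ext z
      constructor
      · intro h
        simp only [mem_union] at h
        rcases h with (h | h) | h
        · exact hPM h
        · exact (mem_inter.1 h).1
        · exact hQM h
      · intro h
        have h1 : z ∈ P ∪ Q ∨ z ∈ M ∩ D := by
          rcases hs.mem z with h' | h' | h' | h'
          · left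
            rw [hPQ]
            exact mem_inter.2 ⟨h, mem_union_left _ h'⟩
          · exact Or.inr (mem_inter.2 ⟨h, h'⟩)
          · left
            rw [hPQ]
            exact mem_inter.2 ⟨h, by simp [h']⟩
          · left
            rw [hPQ]
            exact mem_inter.2 ⟨h, by simp [h']⟩
        simp only [mem_union] at h1 ⊢
        tauto
    have hdis2 : Disjoint (P ∪ (M ∩ D)) Q := by
      rw [disjoint_union_left]
      refine ⟨hdis, disjoint_left.2 fun z hz hz' => ?_⟩
      exact hs.CD (hQC hz') (mem_inter.1 hz).2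
    obtain ⟨a, ha, b, hb, hab⟩ := hv (P ∪ (M ∩ D)) Q hun hdis2 (hP.mono subset_union_left) hQ
    have hbC := hQC hb
    have hab' : a ∈ P ∨ a ∈ D := by
      rcases mem_union.1 ha with h | h
      · exact Or.inl h
      · exact Or.inr (mem_inter.1 h).2
    rcases hab with hab | hab
    · rcases hab' with h | h
      · exact ⟨a, h, b, hb, Or.inl hab⟩
      · exact absurd (by rwa [Sym2.eq_swap]) (hs.no b hbC a h)
    · obtain ⟨B, hB1, hB2, hB3, haB, hbB, hBa, hBb, hBN⟩ := hab
      have haM : a ∈ M := by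
        rcases mem_union.1 ha with h | h
        · exact hPM h
        · exact (mem_inter.1 h).1
      by_cases hzB : x ∈ B ∨ y ∈ B
      · -- impossible, the cut is not crossed
        exfalso
        -- name the one in `B` as `z`, the other one `z'` is in `M`
        have fin : ∀ z z' : V, Spl G z z' C D → Unc G z z' → z ∈ M → z' ∈ B →
            (∃ u ∈ K, s(u, z') ∈ G) → False := by
          intro z z' hs hU hzM hzB' hKz
          have hzB2 : z ∉ B := fun h => disjoint_left.1 hB2 h hzM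
          have haD : a ∈ D := by
            by_contra haD
            obtain ⟨u, hu, huz⟩ := hKz
            have huB : u ∈ B := by
              by_contra huB
              rcases hBN z' hzB' u huB (by rwa [Sym2.eq_swap]) with h | h
              · exact haD (h ▸ hKD hu)
              · exact hs.CD hbC (h ▸ hKD hu)
            have hKB : K ⊆ B := by
              by_contra hcon
              obtain ⟨t, ht, htB⟩ := not_subset.1 hcon
              refine hK ⟨K ∩ B, K \ B, ⟨u, mem_inter.2 ⟨hu, huB⟩⟩, ⟨t, mem_sdiff.2 ⟨ht, htB⟩⟩, ?_, ?_, ?_⟩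
              · exact disjoint_of_subset_left inter_subset_right disjoint_sdiff
              · rw [union_comm]
                exact sdiff_union_inter K B
              · intro p hp q hq hpq
                rw [mem_inter] at hp
                rw [mem_sdiff] at hq
                rcases hBN p hp.2 q hq.2 hpq with h | h
                · exact haD (h ▸ hKD hq.1)
                · exact hs.CD hbC (h ▸ hKD hq.1)
            exact disjoint_left.1 hB2 (hKB hdK) hdM
          refine hU b a (fun e => hs.xC (e ▸ hbC)) (fun e => hs.yC (e ▸ hbC))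
            (fun e => hs.xD (e ▸ haD)) (fun e => hs.yD (e ▸ haD)) ?_
            ⟨C, D, hs.dis, hs.un, hs.no, ⟨b, by simp [hbC]⟩, ⟨a, by simp [haD]⟩⟩
          refine ⟨B, ((univ.erase b).erase a) \ B, hB1, ⟨z, ?_⟩, disjoint_sdiff, ?_, ?_⟩
          · simp only [mem_sdiff, mem_erase, mem_univ, and_true]
            exact ⟨⟨fun e => hs.xD (e ▸ haD), fun e => hs.xC (e ▸ hbC)⟩, hzB2⟩
          · refine union_sdiff_of_subset fun t ht => ?_
            simp only [mem_erase, mem_univ, and_true]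
            exact ⟨fun e => haB (e ▸ ht), fun e => hbB (e ▸ ht)⟩
          · intro p hp q hq hpq
            simp only [mem_sdiff, mem_erase, mem_univ, and_true] at hq
            rcases hBN p hp q hq.2 hpq with h | h
            · exact hq.1.1 h
            · exact hq.1.2 h
        rcases hzB with h | h
        · have hxM : x ∉ M := fun h' => disjoint_left.1 hB2 h h'
          exact fin y x hs.swap2 hU.symm (hxy.resolve_left hxM) h hKx
        · have hyM : y ∉ M := fun h' => disjoint_left.1 hB2 h h'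
          exact fin x y hs hU (hxy.resolve_right hyM) h hKy
      · push Not at hzB
        have hBCD : B ⊆ C ∪ D := by
          intro z hz
          rcases hs.mem z with h | h | h | h
          · exact mem_union_left _ h
          · exact mem_union_right _ h
          · exact absurd (h ▸ hz) hzB.1
          · exact absurd (h ▸ hz) hzB.2
        obtain ⟨u, hu, hub⟩ := hBb
        have huC : u ∈ C := by
          rcases mem_union.1 (hBCD hu) with h | h
          · exact h
          · exact absurd (by rwa [Sym2.eq_swap]) (hs.no b hbC u h)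
        have hBC : B ⊆ C := one_side hB3 hs.dis hBCD hs.no hu huC
        have haP : a ∈ P := by
          refine hab'.resolve_right fun haD => ?_
          obtain ⟨u', hu', hua⟩ := hBa
          exact hs.no u' (hBC hu') a haD hua
        exact ⟨a, haP, b, hb, Or.inr ⟨B, hB1, disjoint_of_subset_right inter_subset_left hB2, hB3, haB, hbB,
          hBa, ⟨u, hu, hub⟩, hBN⟩⟩
  intro P Q hPQ hdis hP hQ
  have hsymm : (∃ a ∈ Q, ∃ b ∈ P, s(a, b) ∈ G ∨ Link G (M ∩ (C ∪ {x, y})) a b) →
      ∃ a ∈ P, ∃ b ∈ Q, s(a, b) ∈ G ∨ Link G (M ∩ (C ∪ {x, y})) a b := by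
    rintro ⟨a, ha, b, hb, h⟩
    refine ⟨b, hb, a, ha, ?_⟩
    rcases h with h | h
    · left
      rwa [Sym2.eq_swap]
    · exact Or.inr h.symm
  have hxN : x ∈ M → x ∈ P ∨ x ∈ Q := by
    intro h
    rw [← mem_union, hPQ]
    exact mem_inter.2 ⟨h, by simp⟩
  have hyN : y ∈ M → y ∈ P ∨ y ∈ Q := by
    intro h
    rw [← mem_union, hPQ]
    exact mem_inter.2 ⟨h, by simp⟩
  by_cases hA : (x ∈ M → x ∈ P) ∧ (y ∈ M → y ∈ P)
  · exact step P Q hPQ hdis hQ hP hA.1 hA.2
  by_cases hB : (x ∈ M → x ∈ Q) ∧ (y ∈ M → y ∈ Q)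
  · exact hsymm (step Q P (by rw [union_comm, hPQ]) hdis.symm hP hQ hB.1 hB.2)
  -- both in `M`, in different parts
  have hxM : x ∈ M := by
    by_contra hxM
    have hyM := hxy.resolve_left hxM
    rcases hyN hyM with h | h
    · exact hA ⟨fun h' => absurd h' hxM, fun _ => h⟩
    · exact hB ⟨fun h' => absurd h' hxM, fun _ => h⟩
  have hyM : y ∈ M := by
    by_contra hyM
    rcases hxN hxM with h | h
    · exact hA ⟨fun _ => h, fun h' => absurd h' hyM⟩
    · exact hB ⟨fun _ => h, fun h' => absurd h' hyM⟩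
  rcases hxN hxM with hx | hx <;> rcases hyN hyM with hy | hy
  · exact absurd ⟨fun _ => hx, fun _ => hy⟩ hA
  · exact ⟨x, hx, y, hy, Or.inr hlink⟩
  · exact ⟨y, hy, x, hx, Or.inr hlink.symm⟩
  · exact absurd ⟨fun _ => hx, fun _ => hy⟩ hB

theorem not_X2_of_conn {G : Finset (Sym2 V)} {M : Finset V} (hM : ¬ Disc M G) : ¬ X2 G M := by
  rintro ⟨x, y, hxy, hx, hy, C, D, h1, h2, h3, h4, h5⟩
  refine hM ⟨M ∩ C, M ∩ D, h4, h5, ?_, ?_, ?_⟩
  · exact disjoint_of_subset_left inter_subset_right (disjoint_of_subset_right inter_subset_right h1)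
  · rw [← inter_union_distrib_left, h2]
    refine inter_eq_left.2 fun z hz => ?_
    simp only [mem_erase, mem_univ, and_true]
    exact ⟨fun e => hy (e ▸ hz), fun e => hx (e ▸ hz)⟩
  · intro a ha b hb
    exact h3 a (mem_inter.1 ha).2 b (mem_inter.1 hb).2

theorem vconn_of_conn {G : Finset (Sym2 V)} {M : Finset V} (hM : ¬ Disc M G) : VConn G M := by
  intro C D hu hd hC hD
  by_contra hcon
  push Not at hcon
  exact hM ⟨C, D, hC, hD, hd, hu, fun a ha b hb => (hcon a ha b hb).1⟩

theorem cov_mono {G : Finset (Sym2 V)} {W W' : Finset V} (h : W ⊆ W') (hc : H85TF.Cov G W') :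
    H85TF.Cov G W := by
  obtain ⟨F, h1, h2, h3⟩ := hc
  exact ⟨F, h1, h2, fun v hv => h3 v (h hv)⟩

theorem cov_empty (G : Finset (Sym2 V)) : H85TF.Cov G ∅ :=
  ⟨∅, empty_subset _, fun v => Or.inl (by simp [H85TF.dg]), fun v hv => absurd hv (notMem_empty v)⟩

/-- A cut which separates a part of `C + x + y` also separates it with any part of `D`. -/
theorem X2_add {G : Finset (Sym2 V)} (hcut : ∀ z, ¬ Disc (univ.erase z) G) {x y : V} {C D : Finset V}
    (hs : Spl G x y C D) (hU : Unc G x y) (hC : C.Nonempty) {W B : Finset V} (hW : W ⊆ C ∪ {x, y})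
    (hX : X2 G W) (hB : B ⊆ D) : X2 G (W ∪ B) := by
  obtain ⟨u, v, huv, hu, hv, hsep⟩ := hX
  obtain ⟨h1, h2⟩ := no_sep' hcut hs hU hC hW hsep
  refine ⟨u, v, huv, ?_, ?_, hsep.mono subset_union_left⟩
  · rw [mem_union]
    exact fun h => h.elim hu fun h => h1 (hB h)
  · rw [mem_union]
    exact fun h => h.elim hv fun h => h2 (hB h)

/-- An uncrossed pair is not separated. -/
theorem X2_pair {G : Finset (Sym2 V)} (hcut : ∀ z, ¬ Disc (univ.erase z) G) {x y : V} {C D : Finset V}
    (hs : Spl G x y C D) (hU : Unc G x y) (hC : C.Nonempty) (hD : D.Nonempty) {W : Finset V}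
    (hW : W ⊆ {x, y}) : ¬ X2 G W := by
  rintro ⟨u, v, huv, hu, hv, hsep⟩
  obtain ⟨h1, h2⟩ := no_sep' hcut hs hU hC (hW.trans subset_union_right) hsep
  obtain ⟨h3, h4⟩ := no_sep' hcut hs.swap hU hD (hW.trans subset_union_right) hsep
  obtain ⟨C', D', _, _, _, ⟨n, hn⟩, _⟩ := hsep
  have hnW := (mem_inter.1 hn).1
  have hn' := hW hnW
  rw [mem_insert, mem_singleton] at hn'
  have hu' : u = x ∨ u = y := by
    rcases hs.mem u with h | h | h | h
    · exact absurd h h3
    · exact absurd h h1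
    · exact Or.inl h
    · exact Or.inr h
  have hv' : v = x ∨ v = y := by
    rcases hs.mem v with h | h | h | h
    · exact absurd h h4
    · exact absurd h h2
    · exact Or.inl h
    · exact Or.inr h
  have hnu : n ≠ u := fun e => hu (e ▸ hnW)
  have hnv : n ≠ v := fun e => hv (e ▸ hnW)
  rcases hn' with rfl | rfl <;> rcases hu' with rfl | rfl <;> rcases hv' with rfl | rfl <;> simp_all

section main

variable {V : Type} [Fintype V] [DecidableEq V]

/-- THE LOWER LINKS. -/
theorem low_aux {G : Finset (Sym2 V)} (hE : ∀ e ∈ G, ¬ e.IsDiag) (hn3 : 3 ≤ Fintype.card V)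
    (hc : ¬ Disc univ G) (hcut : ∀ z, ¬ Disc (univ.erase z) G)
    (hT2 : ∀ M : Finset V, ¬ H85TF.Cov G M → VConn G M → ¬ H89TF.TG G M) :
    ∀ (n : ℕ) (M : Finset V), M.card ≤ n → ¬ H85TF.Cov G M → ¬ X2 G M → VConn G M →
      AC (Ch fun W : Finset V => (¬ H85TF.Cov G W ∨ X2 G W) ∧ W ⊂ M) := by
  intro n
  induction n with
  | zero =>
    intro M hM hcov _ _
    rw [card_eq_zero.1 (Nat.le_zero.1 hM)] at hcov
    exact absurd (cov_empty G) hcov
  | succ n ih =>
    intro M hM hcov hX hv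
    by_cases hsep : ∃ x y, x ≠ y ∧ Sep G x y M
    · obtain ⟨x, y, hxy, ⟨C, D, h1, h2, h3, h4, h5⟩, hU'⟩ := H75V.T3 hE hc hcut hcov hsep
      have hU : Unc G x y := hU'
      have hs : Spl G x y C D := ⟨hxy, h1, h2, h3⟩
      have hxyM : x ∈ M ∨ y ∈ M := by
        by_contra hcon
        push Not at hcon
        exact hX ⟨x, y, hxy, hcon.1, hcon.2, C, D, h1, h2, h3, h4, h5⟩
      have hC : C.Nonempty := h4.mono inter_subset_right
      have hD : D.Nonempty := h5.mono inter_subset_right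
      have side : ∀ C D : Finset V, Spl G x y C D → (M ∩ C).Nonempty → (M ∩ D).Nonempty →
          (∀ W : Finset V, W ⊆ M → W ⊆ C ∪ {x, y} → (¬ H85TF.Cov G W ∨ X2 G W) →
            ∀ B, B ⊆ M ∩ D → (¬ H85TF.Cov G (W ∪ B) ∨ X2 G (W ∪ B))) ∧
          ((¬ H85TF.Cov G (M ∩ (C ∪ {x, y})) ∨ X2 G (M ∩ (C ∪ {x, y}))) →
            AC (Ch fun W : Finset V => (¬ H85TF.Cov G W ∨ X2 G W) ∧ W ⊂ M ∩ (C ∪ {x, y}))) := by
        intro C D hs hC hD
        constructor
        · intro W _ hW hP B hB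
          rcases hP with hP | hP
          · exact Or.inl fun h => hP (cov_mono subset_union_left h)
          · exact Or.inr (X2_add hcut hs hU (hC.mono inter_subset_right) hW hP (hB.trans inter_subset_right))
        · intro hP
          have hX' : ¬ X2 G (M ∩ (C ∪ {x, y})) := X2_side hcut hs hU (hC.mono inter_subset_right) hX
          refine ih _ ?_ (hP.resolve_right hX') hX' (vconn_side hcut hs hU hD hxyM hv)
          have hlt : (M ∩ (C ∪ {x, y})).card < M.card := by
            refine card_lt_card ⟨inter_subset_left, fun h => ?_⟩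
            obtain ⟨d, hd⟩ := hD
            rw [mem_inter] at hd
            have h' := (mem_inter.1 (h hd.1)).2
            rw [mem_union, mem_insert, mem_singleton] at h'
            rcases h' with h' | h' | h'
            · exact hs.CD h' hd.2
            · exact hs.xD (h' ▸ hd.2)
            · exact hs.yD (h' ▸ hd.2)
          omega
      obtain ⟨a1, a2⟩ := side C D hs h4 h5
      obtain ⟨b1, b2⟩ := side D C hs.swap h5 h4
      have hdZ : ∀ C D : Finset V, Spl G x y C D → Disjoint C ({x, y} : Finset V) := by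
        intro C D hs
        rw [disjoint_left]
        intro z hz hz'
        rw [mem_insert, mem_singleton] at hz'
        rcases hz' with h | h
        · exact hs.xC (h ▸ hz)
        · exact hs.yC (h ▸ hz)
      refine H30D.step_i (P := fun W : Finset V => ¬ H85TF.Cov G W ∨ X2 G W) (Cc := C) (Dd := D)
        (Z := {x, y}) h1 (hdZ C D hs) (hdZ D C hs.swap) ?_ h4 h5 ?_ ?_ ?_ a1 b1 a2 b2
      · intro z _
        simp only [mem_union, mem_insert, mem_singleton]
        have := hs.mem z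
        tauto
      · rcases hxyM with h | h
        · exact ⟨x, mem_inter.2 ⟨h, by simp⟩⟩
        · exact ⟨y, mem_inter.2 ⟨h, by simp⟩⟩
      · intro W _ hWZ hWC hWD
        rw [disjoint_right] at hWZ
        exact Or.inr ⟨x, y, hxy, hWZ (by simp), hWZ (by simp), C, D, h1, h2, h3, hWC, hWD⟩
      · intro W hW hP
        rcases hP with hP | hP
        · exact hP (cov_mono hW (H36R.cov_pair hE hn3 hc hcut x y))
        · exact X2_pair hcut hs hU hC hD hW hP
    · have hl : ∀ v, s(v, v) ∉ G := fun v h => hE _ h (by simp)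
      refine ac_congr (fun t => ?_) (H57F.ac_unc' hl hcov (hT2 M hcov hv))
      constructor
      · exact ch_mono fun W hW => ⟨Or.inl hW.2, hW.1⟩
      · refine ch_mono fun W hW => ⟨hW.2, hW.1.resolve_right ?_⟩
        rintro ⟨x, y, hxy, _, _, hs⟩
        exact hsep ⟨x, y, hxy, hs.mono hW.2.1⟩

theorem low {G : Finset (Sym2 V)} (hE : ∀ e ∈ G, ¬ e.IsDiag) (hn3 : 3 ≤ Fintype.card V)
    (hc : ¬ Disc univ G) (hcut : ∀ z, ¬ Disc (univ.erase z) G)
    (hT2 : ∀ M : Finset V, ¬ H85TF.Cov G M → VConn G M → ¬ H89TF.TG G M) {M : Finset V}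
    (hcov : ¬ H85TF.Cov G M) (hX : ¬ X2 G M) (hv : VConn G M) :
    AC (Ch fun W : Finset V => (¬ H85TF.Cov G W ∨ X2 G W) ∧ W ⊂ M) :=
  low_aux hE hn3 hc hcut hT2 M.card M le_rfl hcov hX hv

/-- (L2): the disconnected sets which are uncoverable or 2-separated, if the whole set is uncoverable. -/
theorem L2 {G : Finset (Sym2 V)} (hE : ∀ e ∈ G, ¬ e.IsDiag) (hn3 : 3 ≤ Fintype.card V)
    (hc : ¬ Disc univ G) (hcut : ∀ z, ¬ Disc (univ.erase z) G)
    (hT2 : ∀ M : Finset V, ¬ H85TF.Cov G M → VConn G M → ¬ H89TF.TG G M)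
    (hV : ¬ H85TF.Cov G univ) :
    AC (Ch fun W : Finset V => (¬ H85TF.Cov G W ∨ X2 G W) ∧ Disc W G) := by
  refine H30D.remove_univ (P := fun W : Finset V => ¬ H85TF.Cov G W ∨ X2 G W) (G := G) ?_ (Or.inl hV)
  intro M hP hM
  have hX := not_X2_of_conn hM
  exact low hE hn3 hc hcut hT2 (hP.resolve_right hX) hX (vconn_of_conn hM)

end main

end H4TF
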