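import Pool.Agent.Lib.H4TF.L2
import Pool.Agent.Lib.H23TF.R2

/-!
# H4TF, file L3: (L2) without hypothesis (FORM D, MP_33911d)
-/

set_option autoImplicit false
set_option linter.unusedSectionVars false

namespace H4TF

open Finset H98P H63F H30F H98M

variable {V : Type} [Fintype V] [DecidableEq V]

/-- (T2) -/
theorem T2 {G : Finset (Sym2 V)} (hE : ∀ e ∈ G, ¬ e.IsDiag) (hn3 : 3 ≤ Fintype.card V)
    (hc : ¬ Disc univ G) (hcut : ∀ z, ¬ Disc (univ.erase z) G) (M : Finset V)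
    (hcov : ¬ H85TF.Cov G M) (hv : VConn G M) : ¬ H89TF.TG G M := by
  have hl : ∀ v, s(v, v) ∉ G := fun v h => hE _ h (by simp)
  refine H23TF.R2.not_TG ⟨hc, hcut⟩ hl ?_ ?_
  · by_contra hM
    have h2 : M.card ≤ 2 := by omega
    have hne : M.Nonempty := by
      by_contra hne
      rw [not_nonempty_iff_eq_empty] at hne
      exact hcov (hne ▸ cov_empty G)
    have hp : ∃ z w, M ⊆ {z, w} := by
      obtain ⟨z, hz⟩ := hne
      by_cases h1 : (M.erase z).Nonempty
      · obtain ⟨w, hw⟩ := h1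
        refine ⟨z, w, fun t ht => ?_⟩
        by_contra ht'
        simp only [mem_insert, mem_singleton, not_or] at ht'
        have h4 : ({z, w, t} : Finset V) ⊆ M := by
          intro s hs
          simp only [mem_insert, mem_singleton] at hs
          rcases hs with rfl | rfl | rfl
          · exact hz
          · exact (mem_erase.1 hw).2
          · exact ht
        have h5 := card_le_card h4
        rw [card_eq_three.2 ⟨z, w, t, (mem_erase.1 hw).1.symm, Ne.symm ht'.1, Ne.symm ht'.2, rfl⟩] at h5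
        omega
      · refine ⟨z, z, fun t ht => ?_⟩
        by_contra ht'
        simp only [mem_insert, mem_singleton, not_or] at ht'
        exact h1 ⟨t, mem_erase.2 ⟨ht'.1, ht⟩⟩
    obtain ⟨z, w, hzw⟩ := hp
    exact hcov (cov_mono hzw (H36R.cov_pair hE hn3 hc hcut z w))
  · rintro ⟨C, D, hC, hD, hd, hu, hn⟩
    obtain ⟨a, ha, b, hb, h⟩ := hv C D hu hd hC hD
    refine hn a ha b hb ?_
    rcases h with h | ⟨B, h1, h2, h3, _, _, _, _, h8⟩
    · exact Or.inl h
    · exact Or.inr ⟨B, h1, h2, h3, h8⟩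

/-- THE LOWER LINKS. -/
theorem low' {G : Finset (Sym2 V)} (hE : ∀ e ∈ G, ¬ e.IsDiag) (hn3 : 3 ≤ Fintype.card V)
    (hc : ¬ Disc univ G) (hcut : ∀ z, ¬ Disc (univ.erase z) G) {M : Finset V}
    (hcov : ¬ H85TF.Cov G M) (hX : ¬ X2 G M) (hv : VConn G M) :
    AC (Ch fun W : Finset V => (¬ H85TF.Cov G W ∨ X2 G W) ∧ W ⊂ M) :=
  low hE hn3 hc hcut (T2 hE hn3 hc hcut) hcov hX hv

/-- (L2) -/
theorem L2' {G : Finset (Sym2 V)} (hE : ∀ e ∈ G, ¬ e.IsDiag) (hn3 : 3 ≤ Fintype.card V)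
    (hc : ¬ Disc univ G) (hcut : ∀ z, ¬ Disc (univ.erase z) G) (hV : ¬ H85TF.Cov G univ) :
    AC (Ch fun W : Finset V => (¬ H85TF.Cov G W ∨ X2 G W) ∧ Disc W G) :=
  L2 hE hn3 hc hcut (T2 hE hn3 hc hcut) hV

end H4TF
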