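import Pool.Agent.Lib.H85TF.P1

/-!
# H4TF, file P1: the exchange lemma for sets covered by disjoint cycles of length at least 4

`Cov4 E A`: some triangle-free subset `F` of the edge set `E`, in which every vertex has degree `0`
or `2`, has degree `2` at all the vertices of `A`. THEOREM `exch4`: if `A + b` and `A + d` are
covered in this sense and there is a path of `E` from `b` to `d` for no inner vertex `r` of which
`A + r` is covered, then `A + b + d` is covered. The walk of `H85TF.walk`, from `F₁` towards `F₂`,
is done with a rule for the choices which avoids triangles.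
-/

set_option autoImplicit false
set_option linter.unusedSectionVars false

namespace H4TF

open Finset H85TF

variable {V : Type*} [DecidableEq V]

/-- No three edges of `F` form a triangle. -/
def TF (F : Finset (Sym2 V)) : Prop :=
  ∀ x y z : V, s(x, y) ∈ F → s(y, z) ∈ F → s(x, z) ∈ F → False

/-- `A` is covered by pairwise disjoint cycles of `E`, all of length at least `4`. -/
def Cov4 (E : Finset (Sym2 V)) (A : Finset V) : Prop :=
  ∃ F ⊆ E, (∀ v, dg F v = 0 ∨ dg F v = 2) ∧ (∀ v ∈ A, dg F v = 2) ∧ TF F

theorem TF.mono {F F' : Finset (Sym2 V)} (h : F' ⊆ F) (hF : TF F) : TF F' :=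
  fun x y z h1 h2 h3 => hF x y z (h h1) (h h2) (h h3)

theorem swp (x y : V) : s(x, y) = s(y, x) := Sym2.eq_swap

theorem s_ne {a x y : V} (h : x ≠ y) : s(a, x) ≠ s(a, y) := by
  intro e
  rw [Sym2.eq_iff] at e
  rcases e with e | e
  · exact h e.2
  · exact h (e.2.trans e.1)

theorem dg_one_uniq {F : Finset (Sym2 V)} {a x y : V} (h : dg F a = 1) (hx : s(a, x) ∈ F)
    (hy : s(a, y) ∈ F) : x = y := by
  by_contra hne
  have h1 := card_eq_one.1 h
  obtain ⟨e, he⟩ := h1
  have h2 : s(a, x) ∈ F.filter fun e => a ∈ e := mem_filter.2 ⟨hx, by simp⟩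
  have h3 : s(a, y) ∈ F.filter fun e => a ∈ e := mem_filter.2 ⟨hy, by simp⟩
  rw [he, mem_singleton] at h2 h3
  exact s_ne hne (h2.trans h3.symm)

theorem dg_three {F : Finset (Sym2 V)} {a x y z : V} (hxy : x ≠ y) (hxz : x ≠ z) (hyz : y ≠ z)
    (hx : s(a, x) ∈ F) (hy : s(a, y) ∈ F) (hz : s(a, z) ∈ F) : 3 ≤ dg F a := by
  have h1 : ({s(a, x), s(a, y), s(a, z)} : Finset (Sym2 V)) ⊆ F.filter fun e => a ∈ e := by
    intro e he
    simp only [mem_insert, mem_singleton] at he
    rcases he with rfl | rfl | rfl
    · exact mem_filter.2 ⟨hx, by simp⟩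
    · exact mem_filter.2 ⟨hy, by simp⟩
    · exact mem_filter.2 ⟨hz, by simp⟩
  have h2 := card_le_card h1
  rw [card_insert_of_notMem, card_insert_of_notMem, card_singleton] at h2
  · exact h2
  · rw [mem_singleton]; exact s_ne hyz
  · simp only [mem_insert, mem_singleton, not_or]
    exact ⟨s_ne hxy, s_ne hxz⟩

/-- A triangle of `insert s(a,f) F` which is not in `F`. -/
theorem tf_insert {F : Finset (Sym2 V)} {a f : V} (hF : TF F)
    (h : ∀ w, w ≠ a → w ≠ f → s(a, w) ∈ F → s(w, f) ∈ F → False)
    (hl : ∀ x y : V, s(x, y) ∈ F → x ≠ y) (haf : a ≠ f) : TF (insert s(a, f) F) := by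
  have hl' : ∀ x y : V, s(x, y) ∈ insert s(a, f) F → x ≠ y := by
    intro x y hxy e
    rcases mem_insert.1 hxy with h1 | h1
    · rw [Sym2.eq_iff] at h1
      rcases h1 with h1 | h1
      · exact haf (h1.1.symm.trans (e.trans h1.2))
      · exact haf (h1.2.symm.trans (e.symm.trans h1.1))
    · exact hl x y h1 e
  -- if the first edge is the new one
  have key : ∀ x y z : V, s(x, y) = s(a, f) → s(y, z) ∈ insert s(a, f) F →
      s(x, z) ∈ insert s(a, f) F → False := by
    intro x y z hxy hyz hxz
    have hyz' := hl' _ _ hyz
    have hxz' := hl' _ _ hxz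
    rw [Sym2.eq_iff] at hxy
    rcases hxy with ⟨rfl, rfl⟩ | ⟨rfl, rfl⟩
    · have h1 : s(y, z) ∈ F := by
        rcases mem_insert.1 hyz with h1 | h1
        · rw [swp x y] at h1
          exact absurd h1 (s_ne (Ne.symm hxz'))
        · exact h1
      have h2 : s(x, z) ∈ F := by
        rcases mem_insert.1 hxz with h2 | h2
        · exact absurd h2 (s_ne (Ne.symm hyz'))
        · exact h2
      exact h z (Ne.symm hxz') (Ne.symm hyz') h2 (by rwa [swp z y])
    · have h1 : s(y, z) ∈ F := by
        rcases mem_insert.1 hyz with h1 | h1
        · exact absurd h1 (s_ne (Ne.symm hxz'))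
        · exact h1
      have h2 : s(x, z) ∈ F := by
        rcases mem_insert.1 hxz with h2 | h2
        · rw [swp y x] at h2
          exact absurd h2 (s_ne (Ne.symm hyz'))
        · exact h2
      exact h z (Ne.symm hyz') (Ne.symm hxz') h1 (by rwa [swp z x])
  intro x y z hxy hyz hxz
  rcases mem_insert.1 hxy with h1 | h1
  · exact key x y z h1 hyz hxz
  rcases mem_insert.1 hyz with h2 | h2
  · exact key y z x h2 (by rwa [swp z x]) (by rwa [swp y x])
  rcases mem_insert.1 hxz with h3 | h3
  · exact key x z y h3 (by rwa [swp z y]) hxy
  · exact hF x y z h1 h2 h3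

theorem sd_insert {F F₂ : Finset (Sym2 V)} {e : Sym2 V} (h2 : e ∈ F₂) (h : e ∉ F) :
    (symmDiff (insert e F) F₂).card < (symmDiff F F₂).card := by
  have h3 : symmDiff (insert e F) F₂ ⊂ symmDiff F F₂ := by
    rw [ssubset_iff_of_subset]
    · refine ⟨e, ?_, ?_⟩
      · rw [mem_symmDiff]; exact Or.inr ⟨h2, h⟩
      · rw [mem_symmDiff]; rintro (h | h)
        · exact h.2 h2
        · exact h.2 (mem_insert_self _ _)
    · intro e' he
      rw [mem_symmDiff] at he ⊢
      rcases he with he | he
      · rcases mem_insert.1 he.1 with h4 | h4
        · exact absurd (h4 ▸ h2) he.2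
        · exact Or.inl ⟨h4, he.2⟩
      · exact Or.inr ⟨he.1, fun h4 => he.2 (mem_insert_of_mem h4)⟩
  exact card_lt_card h3

theorem sd_erase {F F₂ : Finset (Sym2 V)} {e : Sym2 V} (h : e ∈ F) (h2 : e ∉ F₂) :
    (symmDiff (F.erase e) F₂).card < (symmDiff F F₂).card := by
  have h3 : symmDiff (F.erase e) F₂ ⊂ symmDiff F F₂ := by
    rw [ssubset_iff_of_subset]
    · refine ⟨e, ?_, ?_⟩
      · rw [mem_symmDiff]; exact Or.inl ⟨h, h2⟩
      · rw [mem_symmDiff]; rintro (h | h)
        · exact notMem_erase _ _ h.1
        · exact h2 h.1
    · intro e' he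
      rw [mem_symmDiff] at he ⊢
      rcases he with he | he
      · exact Or.inl ⟨mem_of_mem_erase he.1, he.2⟩
      · refine Or.inr ⟨he.1, fun h4 => he.2 (mem_erase.2 ⟨?_, h4⟩)⟩
        rintro rfl
        exact h2 he.1
  exact card_lt_card h3

/-- Adding a path whose inner vertices have degree `0`. -/
theorem addPath4 {E : Finset (Sym2 V)} (hE : ∀ e ∈ E, ¬ e.IsDiag) {d : V} :
    ∀ {x : V} (p : (SimpleGraph.fromEdgeSet (E : Set (Sym2 V))).Walk x d), p.IsPath →
      ∀ F : Finset (Sym2 V), F ⊆ E → x ≠ d → s(x, d) ∉ F → dg F x = 1 → dg F d = 1 → TF F →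
      (∀ w, s(x, w) ∈ F → s(w, d) ∈ F → s(x, d) ∈ E → False) →
      (∀ v, v ≠ x → v ≠ d → dg F v = 0 ∨ dg F v = 2) →
      (∀ r ∈ p.support, r ≠ x → r ≠ d → dg F r = 0) →
      ∃ F' ⊆ E, (∀ v, dg F' v = 0 ∨ dg F' v = 2) ∧ TF F' ∧ dg F' x = 2 ∧ dg F' d = 2 ∧
        ∀ v, dg F v = 2 → dg F' v = 2 := by
  intro x p
  induction p with
  | nil => intro _ F _ h; exact absurd rfl h
  | @cons x y d h q ih =>
    intro hp F hF hxd hne hx hd hT hw hdeg hin
    rw [SimpleGraph.fromEdgeSet_adj] at h
    obtain ⟨hxy, hxy'⟩ := h
    rw [SimpleGraph.Walk.cons_isPath_iff] at hp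
    have hl : ∀ u v : V, s(u, v) ∈ F → u ≠ v := fun u v huv e =>
      hE s(u, v) (hF huv) (by simpa using e)
    by_cases hyd : y = d
    · subst hyd
      have key := dg_insert hne
      refine ⟨insert s(x, y) F, insert_subset (by exact_mod_cast hxy) hF, ?_, ?_, ?_, ?_, ?_⟩
      · intro v
        rw [key v]
        by_cases h1 : v = x
        · subst h1; simp [hx]
        · by_cases h2 : v = y
          · subst h2; simp [hd]
          · simpa [h1, h2] using hdeg v h1 h2
      · exact tf_insert hT (fun w _ _ h1 h2 => hw w h1 h2 (by exact_mod_cast hxy)) hl hxy'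
      · rw [key x]; simp [hx]
      · rw [key y]; simp [hd]
      · intro v hv
        rw [key v]
        have h1 : v ≠ x := fun e => by subst e; omega
        have h2 : v ≠ y := fun e => by subst e; omega
        simpa [h1, h2] using hv
    · have hy0 : dg F y = 0 := hin y (by simp) (Ne.symm hxy') hyd
      have hnF : s(x, y) ∉ F := fun h' => by
        have := dg_pos' h'
        omega
      have key := dg_insert hnF
      have hy1 : dg (insert s(x, y) F) y = 1 := by rw [key y]; simp [hy0]
      obtain ⟨F', hF', h1, h0, h2, h3, h4⟩ := ih hp.1 (insert s(x, y) F)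
        (insert_subset (by exact_mod_cast hxy) hF) hyd
        (by
          intro h'
          rcases mem_insert.1 h' with h' | h'
          · rw [Sym2.eq_iff] at h'
            rcases h' with h' | h'
            · exact hxy' h'.1.symm
            · exact hxd h'.2.symm
          · have := dg_pos h'
            omega)
        hy1
        (by
          rw [key d]
          have h1 : d ≠ x := Ne.symm hxd
          have h2 : d ≠ y := Ne.symm hyd
          simpa [h1, h2] using hd)
        (tf_insert hT (fun w _ _ _ h2 => by
          have := dg_pos' h2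
          omega) hl hxy')
        (by
          intro w h1 h2 _
          have h3 : w = x := dg_one_uniq hy1 h1 (by rw [swp y x]; exact mem_insert_self _ _)
          subst h3
          rcases mem_insert.1 h2 with h2 | h2
          · exact absurd h2 (s_ne (Ne.symm hyd))
          · exact hne h2)
        (by
          intro v hv1 hv2
          rw [key v]
          by_cases h1 : v = x
          · subst h1; simp [hx]
          · simpa [h1, hv1] using hdeg v h1 hv2)
        (by
          intro r hr hr1 hr2
          have h1 : r ≠ x := fun e => hp.2 (e ▸ hr)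
          rw [key r]
          have := hin r (by simp [hr]) h1 hr2
          simpa [h1, hr1] using this)
      refine ⟨F', hF', h1, h0, h4 x (by rw [key x]; simp [hx]), h3, fun v hv => h4 v ?_⟩
      rw [key v]
      have h5 : v ≠ x := fun e => by subst e; omega
      have h6 : v ≠ y := fun e => by subst e; omega
      simpa [h5, h6] using hv

/-- The walk from `F₁` towards `F₂`, avoiding triangles. -/
theorem walk4 {E F₁ F₂ : Finset (Sym2 V)} (hE : ∀ e ∈ E, ¬ e.IsDiag) (h1 : F₁ ⊆ E) (h2 : F₂ ⊆ E)
    {A : Finset V} {b d : V} (hbd : b ≠ d) (hdA : d ∉ A)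
    (hd1 : dg F₁ d = 0) (hb2 : dg F₂ b = 0) (hdeg2 : ∀ v, dg F₂ v = 0 ∨ dg F₂ v = 2)
    (hA2 : ∀ v ∈ A, dg F₂ v = 2) (hT2 : TF F₂) :
    ∀ (k : ℕ) (F : Finset (Sym2 V)) (a : V), (symmDiff F F₂).card < k → F ⊆ F₁ ∪ F₂ →
      a ≠ d → dg F d = 1 → dg F a = 1 → TF F →
      (∀ v, v ≠ a → v ≠ d → dg F v = 0 ∨ dg F v = 2) → (∀ v ∈ insert b A, v ≠ a → dg F v = 2) →
      ∃ F' ⊆ F₁ ∪ F₂, TF F' ∧ (∀ v ∈ A, dg F' v = 2) ∧
        (((∀ v, dg F' v = 0 ∨ dg F' v = 2) ∧ dg F' b = 2 ∧ dg F' d = 2) ∨
          (dg F' b = 1 ∧ dg F' d = 1 ∧ ∀ v, v ≠ b → v ≠ d → dg F' v = 0 ∨ dg F' v = 2)) := by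
  intro k
  induction k with
  | zero => intro F a h; omega
  | succ k ih =>
    intro F a hk hF had hd ha hT hdeg hA
    have hEu : ∀ {x y : V}, s(x, y) ∈ F₁ ∪ F₂ → x ≠ y := by
      intro x y hxy e
      refine hE s(x, y) ((union_subset h1 h2) hxy) ?_
      simpa using e
    have hl : ∀ x y : V, s(x, y) ∈ F → x ≠ y := fun x y h => hEu (hF h)
    -- an edge at `d` is in `F₂`
    have hdF : ∀ x : V, s(x, d) ∈ F → s(x, d) ∈ F₂ := by
      intro x hx
      rcases mem_union.1 (hF hx) with h3 | h3
      · have := dg_pos' h3
        omega
      · exact h3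
    by_cases hab : a = b
    · subst hab
      refine ⟨F, hF, hT, fun v hv => ?_, Or.inr ⟨ha, hd, hdeg⟩⟩
      by_cases hva : v = a
      · subst hva
        have := hA2 v hv
        omega
      · exact hA v (mem_insert_of_mem hv) hva
    rcases hdeg2 a with h0 | h0
    · -- removing the only edge at `a`
      obtain ⟨z, hz, hz2⟩ := exists_edge (F := F) (F' := F₂) (a := a) (by omega)
      have haz : a ≠ z := hl _ _ hz
      have hzd : z ≠ d := by
        rintro rfl
        exact hz2 (hdF a hz)
      have key := dg_erase hz
      have ka := key a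
      rw [if_pos (Or.inl rfl)] at ka
      have kz := key z
      rw [if_pos (Or.inr rfl)] at kz
      have kd := key d
      rw [if_neg (by push Not; exact ⟨Ne.symm had, Ne.symm hzd⟩)] at kd
      have haA : a ∉ A := fun h => by
        have := hA2 a h
        omega
      refine ih (F.erase s(a, z)) z ?_ ((erase_subset _ _).trans hF) hzd (by omega) ?_
        (hT.mono (erase_subset _ _)) ?_ ?_
      · have := sd_erase hz hz2
        omega
      · have := hdeg z (Ne.symm haz) hzd
        omega
      · intro v hv1 hv2
        by_cases h3 : v = a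
        · subst h3; omega
        · have h5 := key v
          rw [if_neg (by push Not; exact ⟨h3, hv1⟩)] at h5
          have := hdeg v h3 hv2
          omega
      · intro v hv hv1
        have h3 : v ≠ a := by
          rintro rfl
          rcases mem_insert.1 hv with h | h
          · exact hab h
          · exact haA h
        have h5 := key v
        rw [if_neg (by push Not; exact ⟨h3, hv1⟩)] at h5
        have := hA v hv h3
        omega
    · -- adding an edge of `F₂` at `a`
      obtain ⟨z, hz, -⟩ := exists_edge (F := F) (F' := ∅) (a := a) (by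
        have : dg (∅ : Finset (Sym2 V)) a = 0 := by simp [dg]
        omega)
      have haz : a ≠ z := hl _ _ hz
      -- the good choice
      have hgood : ∃ f, s(a, f) ∈ F₂ ∧ s(a, f) ∉ F ∧ ¬ (s(z, f) ∈ F ∧ s(z, f) ∈ F₂) := by
        obtain ⟨f, hf2, hf⟩ := exists_edge (F := F₂) (F' := F) (a := a) (by omega)
        by_cases hg : s(z, f) ∈ F ∧ s(z, f) ∈ F₂
        swap
        · exact ⟨f, hf2, hf, hg⟩
        have haz2 : s(a, z) ∉ F₂ := fun h => hT2 a z f h hg.2 hf2
        obtain ⟨f', hf'2, hf'⟩ := exists_edge (F := F₂) (F' := {s(a, f)}) (a := a) (by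
          have h3 : dg ({s(a, f)} : Finset (Sym2 V)) a ≤ 1 := by
            unfold dg
            exact (card_filter_le _ _).trans (by simp)
          omega)
        have hff : f' ≠ f := by
          rintro rfl
          exact hf' (mem_singleton_self _)
        refine ⟨f', hf'2, ?_, ?_⟩
        · intro h
          have h3 := dg_one_uniq ha h hz
          exact haz2 (h3 ▸ hf'2)
        · rintro ⟨h3, -⟩
          have hzd : z ≠ d := by
            rintro rfl
            have h4 := dg_one_uniq hd hg.1 h3
            exact hff h4.symm
          have h4 := dg_three (a := z) (x := a) (y := f) (z := f')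
            (fun e => by
              subst e
              exact absurd rfl (hEu (mem_union_right _ hf2)))
            (fun e => by
              subst e
              exact absurd rfl (hEu (mem_union_right _ hf'2)))
            (Ne.symm hff) (by rwa [swp z a]) hg.1 h3
          have := hdeg z (Ne.symm haz) hzd
          omega
      obtain ⟨f, hf2, hf, hgood⟩ := hgood
      have haf : a ≠ f := hEu (mem_union_right _ hf2)
      have hfb : f ≠ b := by
        rintro rfl
        have := dg_pos' hf2
        omega
      have key := dg_insert hf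
      have ka := key a
      rw [if_pos (Or.inl rfl)] at ka
      have kf := key f
      rw [if_pos (Or.inr rfl)] at kf
      have hF' : insert s(a, f) F ⊆ F₁ ∪ F₂ := insert_subset (mem_union_right _ hf2) hF
      by_cases hfd : f = d
      · subst hfd
        refine ⟨insert s(a, f) F, hF', tf_insert hT ?_ hl haf, ?_, Or.inl ⟨?_, ?_, by omega⟩⟩
        · intro w _ _ hw1 hw2
          have h3 := dg_one_uniq ha hw1 hz
          subst h3
          exact hgood ⟨hw2, hdF w hw2⟩
        · intro v hv
          by_cases h3 : v = a
          · subst h3; omega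
          · have h4 : v ≠ f := fun e => hdA (e ▸ hv)
            have h5 := key v
            rw [if_neg (by push Not; exact ⟨h3, h4⟩)] at h5
            have := hA v (mem_insert_of_mem hv) h3
            omega
        · intro v
          by_cases h3 : v = a
          · subst h3; omega
          · by_cases h4 : v = f
            · subst h4; omega
            · have h5 := key v
              rw [if_neg (by push Not; exact ⟨h3, h4⟩)] at h5
              have := hdeg v h3 h4
              omega
        · have h5 := key b
          rw [if_neg (by push Not; exact ⟨Ne.symm hab, hbd⟩)] at h5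
          have := hA b (mem_insert_self _ _) (Ne.symm hab)
          omega
      have kd := key d
      rw [if_neg (by push Not; exact ⟨Ne.symm had, Ne.symm hfd⟩)] at kd
      have hsd := sd_insert hf2 hf
      rcases hdeg f (Ne.symm haf) hfd with hf0 | hf0
      · -- `f` had degree 0
        refine ih (insert s(a, f) F) f (by omega) hF' hfd (by omega) (by omega)
          (tf_insert hT ?_ hl haf) ?_ ?_
        · intro w _ _ _ hw2
          have := dg_pos' hw2
          omega
        · intro v hv1 hv2
          by_cases h3 : v = a
          · subst h3; omega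
          · have h5 := key v
            rw [if_neg (by push Not; exact ⟨h3, hv1⟩)] at h5
            have := hdeg v h3 hv2
            omega
        · intro v hv hv1
          by_cases h3 : v = a
          · subst h3; omega
          · have h5 := key v
            rw [if_neg (by push Not; exact ⟨h3, hv1⟩)] at h5
            have := hA v hv h3
            omega
      · -- `f` had degree 2: remove an edge
        have hg : ∃ g, s(f, g) ∈ F ∧ s(f, g) ∉ F₂ ∧ (s(z, f) ∈ F → g = z) := by
          by_cases hzf : s(z, f) ∈ F
          · refine ⟨z, by rwa [swp f z], ?_, fun _ => rfl⟩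
            rw [swp f z]
            exact fun h => hgood ⟨hzf, h⟩
          · obtain ⟨g, hg, hg2⟩ := exists_edge (F := insert s(a, f) F) (F' := F₂) (a := f) (by
              have := hdeg2 f
              omega)
            refine ⟨g, ?_, hg2, fun h => absurd h hzf⟩
            rcases mem_insert.1 hg with h | h
            · exact absurd (h ▸ hf2) hg2
            · exact h
        obtain ⟨g, hgF, hg2, hgz⟩ := hg
        have hfg : f ≠ g := hl _ _ hgF
        have hgd : g ≠ d := by
          rintro rfl
          exact hg2 (hdF f hgF)
        have hga : g ≠ a := by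
          rintro rfl
          exact hf (by rwa [swp g f])
        have hgm : s(f, g) ∈ insert s(a, f) F := mem_insert_of_mem hgF
        have key2 := dg_erase hgm
        have kf2 := key2 f
        rw [if_pos (Or.inl rfl)] at kf2
        have kg2 := key2 g
        rw [if_pos (Or.inr rfl)] at kg2
        have kg := key g
        rw [if_neg (by push Not; exact ⟨hga, Ne.symm hfg⟩)] at kg
        have ka2 := key2 a
        rw [if_neg (by push Not; exact ⟨haf, Ne.symm hga⟩)] at ka2
        have kd2 := key2 d
        rw [if_neg (by push Not; exact ⟨Ne.symm hfd, Ne.symm hgd⟩)] at kd2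
        have hsd2 := sd_erase hgm hg2
        have hgpos := dg_pos' hgF
        have hgdeg := hdeg g hga hgd
        refine ih ((insert s(a, f) F).erase s(f, g)) g (by omega)
          ((erase_subset _ _).trans hF') hgd (by omega) (by omega) ?_ ?_ ?_
        · -- no triangle
          by_cases hzf : s(z, f) ∈ F
          · have hgz' := hgz hzf
            subst hgz'
            have hne : s(a, f) ≠ s(f, g) := by
              rw [swp a f]
              exact s_ne (Ne.symm hga)
            rw [erase_insert_of_ne hne]
            refine tf_insert (hT.mono (erase_subset _ _)) ?_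
              (fun x y h => hl x y (mem_of_mem_erase h)) haf
            intro w _ _ hw1 hw2
            have h3 := dg_one_uniq ha (mem_of_mem_erase hw1) hz
            subst h3
            rw [swp w f] at hw2
            exact notMem_erase _ _ hw2
          · refine (tf_insert hT ?_ hl haf).mono (erase_subset _ _)
            intro w _ _ hw1 hw2
            have h3 := dg_one_uniq ha hw1 hz
            subst h3
            exact hzf hw2
        · intro v hv1 hv2
          have k2 := key2 v
          by_cases h3 : v = a
          · subst h3; omega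
          · by_cases h4 : v = f
            · subst h4; omega
            · rw [if_neg (by push Not; exact ⟨h4, hv1⟩)] at k2
              have h5 := key v
              rw [if_neg (by push Not; exact ⟨h3, h4⟩)] at h5
              have := hdeg v h3 hv2
              omega
        · intro v hv hv1
          have k2 := key2 v
          by_cases h3 : v = a
          · subst h3; omega
          · by_cases h4 : v = f
            · subst h4; omega
            · rw [if_neg (by push Not; exact ⟨h4, hv1⟩)] at k2
              have h5 := key v
              rw [if_neg (by push Not; exact ⟨h3, h4⟩)] at h5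
              have := hA v hv h3
              omega

/-- THE EXCHANGE LEMMA for disjoint cycles of length at least 4. -/
theorem exch4 {E : Finset (Sym2 V)} (hE : ∀ e ∈ E, ¬ e.IsDiag) {A : Finset V} {b d : V}
    (hb : Cov4 E (insert b A)) (hd : Cov4 E (insert d A))
    (p : (SimpleGraph.fromEdgeSet (E : Set (Sym2 V))).Walk b d) (hp : p.IsPath)
    (hin : ∀ r ∈ p.support, r ≠ b → r ≠ d → ¬ Cov4 E (insert r A)) :
    Cov4 E (insert b (insert d A)) := by
  obtain ⟨F₁, h1, hdeg1, hA1, hT1⟩ := hb
  obtain ⟨F₂, h2, hdeg2, hA2, hT2⟩ := hd
  have hb1 : dg F₁ b = 2 := hA1 b (mem_insert_self _ _)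
  have hd2 : dg F₂ d = 2 := hA2 d (mem_insert_self _ _)
  rcases hdeg1 d with hd1 | hd1
  swap
  · refine ⟨F₁, h1, hdeg1, fun v hv => ?_, hT1⟩
    rcases mem_insert.1 hv with rfl | hv
    · exact hb1
    · rcases mem_insert.1 hv with rfl | hv
      · exact hd1
      · exact hA1 v (mem_insert_of_mem hv)
  rcases hdeg2 b with hb2 | hb2
  swap
  · refine ⟨F₂, h2, hdeg2, fun v hv => ?_, hT2⟩
    rcases mem_insert.1 hv with rfl | hv
    · exact hb2
    · exact hA2 v hv
  have hbd : b ≠ d := by rintro rfl; omega
  have hbA : b ∉ A := fun h => by
    have := hA2 b (mem_insert_of_mem h)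
    omega
  have hdA : d ∉ A := fun h => by
    have := hA1 d (mem_insert_of_mem h)
    omega
  have hl1 : ∀ x y : V, s(x, y) ∈ F₁ → x ≠ y := fun x y h e =>
    hE s(x, y) (h1 h) (by simpa using e)
  obtain ⟨f, hf2, hf⟩ := exists_edge (F := F₂) (F' := F₁) (a := d) (by omega)
  have hdf : d ≠ f := fun e => hE s(d, f) (h2 hf2) (by simpa using e)
  have hfb : f ≠ b := by
    rintro rfl
    have := dg_pos' hf2
    omega
  have key := dg_insert hf
  have kd := key d
  rw [if_pos (Or.inl rfl)] at kd
  have kf := key f
  rw [if_pos (Or.inr rfl)] at kf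
  have hF' : insert s(d, f) F₁ ⊆ F₁ ∪ F₂ :=
    insert_subset (mem_union_right _ hf2) subset_union_left
  have hTi : TF (insert s(d, f) F₁) := tf_insert hT1 (fun w _ _ hw _ => by
    have := dg_pos hw
    omega) hl1 hdf
  have hw := walk4 hE h1 h2 hbd hdA hd1 hb2 hdeg2 (fun v hv => hA2 v (mem_insert_of_mem hv)) hT2
  have main : ∃ F' ⊆ F₁ ∪ F₂, TF F' ∧ (∀ v ∈ A, dg F' v = 2) ∧
        (((∀ v, dg F' v = 0 ∨ dg F' v = 2) ∧ dg F' b = 2 ∧ dg F' d = 2) ∨
          (dg F' b = 1 ∧ dg F' d = 1 ∧ ∀ v, v ≠ b → v ≠ d → dg F' v = 0 ∨ dg F' v = 2)) := by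
    rcases hdeg1 f with hf0 | hf0
    · refine hw _ (insert s(d, f) F₁) f (Nat.lt_succ_self _) hF' (Ne.symm hdf) (by omega)
        (by omega) hTi ?_ ?_
      · intro v hv1 hv2
        have h5 := key v
        rw [if_neg (by push Not; exact ⟨hv2, hv1⟩)] at h5
        have := hdeg1 v
        omega
      · intro v hv hv1
        have h6 := hA1 v hv
        have hv2 : v ≠ d := by rintro rfl; omega
        have h5 := key v
        rw [if_neg (by push Not; exact ⟨hv2, hv1⟩)] at h5
        omega
    · obtain ⟨g, hg, hg2⟩ := exists_edge (F := insert s(d, f) F₁) (F' := F₂) (a := f) (by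
        have := hdeg2 f
        omega)
      have hgF : s(f, g) ∈ F₁ := by
        rcases mem_insert.1 hg with h | h
        · exact absurd (h ▸ hf2) hg2
        · exact h
      have hfg : f ≠ g := hl1 _ _ hgF
      have hgd : g ≠ d := by
        rintro rfl
        have := dg_pos' hgF
        omega
      have key2 := dg_erase hg
      have kf2 := key2 f
      rw [if_pos (Or.inl rfl)] at kf2
      have kg2 := key2 g
      rw [if_pos (Or.inr rfl)] at kg2
      have kg := key g
      rw [if_neg (by push Not; exact ⟨hgd, Ne.symm hfg⟩)] at kg
      have kd2 := key2 d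
      rw [if_neg (by push Not; exact ⟨hdf, Ne.symm hgd⟩)] at kd2
      have hgpos := dg_pos' hgF
      have hgdeg := hdeg1 g
      refine hw _ ((insert s(d, f) F₁).erase s(f, g)) g (Nat.lt_succ_self _)
        ((erase_subset _ _).trans hF') hgd (by omega) (by omega)
        (hTi.mono (erase_subset _ _)) ?_ ?_
      · intro v hv1 hv2
        have k2 := key2 v
        by_cases h4 : v = f
        · subst h4; omega
        · rw [if_neg (by push Not; exact ⟨h4, hv1⟩)] at k2
          have h5 := key v
          rw [if_neg (by push Not; exact ⟨hv2, h4⟩)] at h5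
          have := hdeg1 v
          omega
      · intro v hv hv1
        have h6 := hA1 v hv
        have hv2 : v ≠ d := by rintro rfl; omega
        have k2 := key2 v
        by_cases h4 : v = f
        · subst h4; omega
        · rw [if_neg (by push Not; exact ⟨h4, hv1⟩)] at k2
          have h5 := key v
          rw [if_neg (by push Not; exact ⟨hv2, h4⟩)] at h5
          omega
  obtain ⟨F', hF's, hT', hA', h3⟩ := main
  rcases h3 with ⟨h4, h5, h6⟩ | ⟨h4, h5, h6⟩
  · refine ⟨F', hF's.trans (union_subset h1 h2), h4, fun v hv => ?_, hT'⟩
    rcases mem_insert.1 hv with rfl | hv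
    · exact h5
    · rcases mem_insert.1 hv with rfl | hv
      · exact h6
      · exact hA' v hv
  · by_cases hz : ∃ z, s(b, z) ∈ F' ∧ s(z, d) ∈ F' ∧ s(b, d) ∈ E
    · obtain ⟨z, hz1, hz2, hz3⟩ := hz
      have hz1' : s(b, z) ∈ F₁ := by
        rcases mem_union.1 (hF's hz1) with h | h
        · exact h
        · have := dg_pos h
          omega
      have hz2' : s(z, d) ∈ F₂ := by
        rcases mem_union.1 (hF's hz2) with h | h
        · have := dg_pos' h
          omega
        · exact h
      have hbz : b ≠ z := hl1 _ _ hz1'
      have hzd : z ≠ d := fun e => hE s(z, d) (h2 hz2') (by simpa using e)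
      have k1 := dg_erase hz1'
      have hn2 : s(z, d) ∉ F₁.erase s(b, z) := fun h => by
        have := dg_pos' (mem_of_mem_erase h)
        omega
      have k2 := dg_insert hn2
      have hn3 : s(b, d) ∉ insert s(z, d) (F₁.erase s(b, z)) := by
        intro h
        rcases mem_insert.1 h with h | h
        · rw [swp b d, swp z d] at h
          exact s_ne hbz h
        · have := dg_pos' (mem_of_mem_erase h)
          omega
      have k3 := dg_insert hn3
      have hl2 : ∀ x y : V, s(x, y) ∈ F₁.erase s(b, z) → x ≠ y := fun x y h =>
        hl1 x y (mem_of_mem_erase h)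
      have hT4 : TF (insert s(z, d) (F₁.erase s(b, z))) :=
        tf_insert (hT1.mono (erase_subset _ _)) (fun w _ _ _ h => by
          have := dg_pos' (mem_of_mem_erase h)
          omega) hl2 hzd
      have hT5 : TF (insert s(b, d) (insert s(z, d) (F₁.erase s(b, z)))) := by
        refine tf_insert hT4 ?_ ?_ hbd
        · intro w hwb hwd hw1 hw2
          have hwz : w = z := by
            rcases mem_insert.1 hw2 with h | h
            · by_contra hne
              rw [swp w d, swp z d] at h
              exact s_ne hne h
            · have := dg_pos' (mem_of_mem_erase h)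
              omega
          subst hwz
          rcases mem_insert.1 hw1 with h | h
          · rw [swp b w] at h
            exact s_ne hbd h
          · exact notMem_erase _ _ h
        · intro x y h
          rcases mem_insert.1 h with h | h
          · intro e
            subst e
            rw [Sym2.eq_iff] at h
            rcases h with h | h
            · exact hzd (h.1.symm.trans h.2)
            · exact hzd (h.2.symm.trans h.1)
          · exact hl2 x y h
      refine ⟨_, ?_, ?_, ?_, hT5⟩
      · exact insert_subset hz3 (insert_subset (h2 hz2') ((erase_subset _ _).trans h1))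
      · intro v
        have k1 := k1 v
        have k2 := k2 v
        have k3 := k3 v
        have := hdeg1 v
        by_cases e1 : v = b
        · subst e1
          simp only [true_or, if_true] at k1 k3
          rw [if_neg (by push Not; exact ⟨hbz, hbd⟩)] at k2
          omega
        · by_cases e2 : v = d
          · subst e2
            simp only [or_true, if_true] at k2 k3
            rw [if_neg (by push Not; exact ⟨e1, Ne.symm hzd⟩)] at k1
            omega
          · rw [if_neg (by push Not; exact ⟨e1, e2⟩)] at k3
            by_cases e3 : v = z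
            · subst e3
              simp only [true_or, or_true, if_true] at k1 k2
              omega
            · rw [if_neg (by push Not; exact ⟨e1, e3⟩)] at k1
              rw [if_neg (by push Not; exact ⟨e3, e2⟩)] at k2
              omega
      · intro v hv
        have k1 := k1 v
        have k2 := k2 v
        have k3 := k3 v
        have hv2 : v = d ∨ dg F₁ v = 2 := by
          rcases mem_insert.1 hv with rfl | hv
          · exact Or.inr hb1
          · rcases mem_insert.1 hv with rfl | hv
            · exact Or.inl rfl
            · exact Or.inr (hA1 v (mem_insert_of_mem hv))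
        by_cases e1 : v = b
        · subst e1
          simp only [true_or, if_true] at k1 k3
          rw [if_neg (by push Not; exact ⟨hbz, hbd⟩)] at k2
          omega
        · by_cases e2 : v = d
          · subst e2
            simp only [or_true, if_true] at k2 k3
            rw [if_neg (by push Not; exact ⟨e1, Ne.symm hzd⟩)] at k1
            omega
          · have hv3 : dg F₁ v = 2 := hv2.resolve_left e2
            rw [if_neg (by push Not; exact ⟨e1, e2⟩)] at k3
            by_cases e3 : v = z
            · subst e3
              simp only [true_or, or_true, if_true] at k1 k2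
              omega
            · rw [if_neg (by push Not; exact ⟨e1, e3⟩)] at k1
              rw [if_neg (by push Not; exact ⟨e3, e2⟩)] at k2
              omega
    · push Not at hz
      obtain ⟨F'', hF'', h7, h0, h8, h9, h10⟩ := addPath4 hE p hp F'
        (hF's.trans (union_subset h1 h2)) hbd
        (by
          intro h
          rcases mem_union.1 (hF's h) with h | h
          · have := dg_pos' h
            omega
          · have := dg_pos h
            omega) h4 h5 hT' (fun w hw1 hw2 hw3 => hz w hw1 hw2 hw3) h6
        (by
          intro r hr hr1 hr2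
          have hn := hin r hr hr1 hr2
          refine dg_union_zero hF's ?_ ?_
          · rcases hdeg1 r with h | h
            · exact h
            · refine absurd ⟨F₁, h1, hdeg1, fun v hv => ?_, hT1⟩ hn
              rcases mem_insert.1 hv with rfl | hv
              · exact h
              · exact hA1 v (mem_insert_of_mem hv)
          · rcases hdeg2 r with h | h
            · exact h
            · refine absurd ⟨F₂, h2, hdeg2, fun v hv => ?_, hT2⟩ hn
              rcases mem_insert.1 hv with rfl | hv
              · exact h
              · exact hA2 v (mem_insert_of_mem hv))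
      refine ⟨F'', hF'', h7, fun v hv => ?_, h0⟩
      rcases mem_insert.1 hv with rfl | hv
      · exact h8
      · rcases mem_insert.1 hv with rfl | hv
        · exact h9
        · exact h10 v (hA' v hv)

end H4TF
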