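import Pool.Agent.Lib.H4TF.P1
import Pool.Agent.Lib.H85TF.P2

/-!
# H4TF, file P2: exchange inside a connected set; every vertex is on a cycle of length at least 4
-/

set_option autoImplicit false
set_option linter.unusedSectionVars false

namespace H4TF

open Finset H85TF H98M

variable {V : Type*} [DecidableEq V]

theorem cov4_sub {E : Finset (Sym2 V)} {A B : Finset V} (h : A ⊆ B) (hB : Cov4 E B) :
    Cov4 E A := by
  obtain ⟨F, h1, h2, h3, h4⟩ := hB
  exact ⟨F, h1, h2, fun v hv => h3 v (h hv), h4⟩

theorem cov4_edges {E E' : Finset (Sym2 V)} {A : Finset V} (h : E ⊆ E') (hA : Cov4 E A) :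
    Cov4 E' A := by
  obtain ⟨F, h1, h2, h3, h4⟩ := hA
  exact ⟨F, h1.trans h, h2, h3, h4⟩

theorem cov4_empty (E : Finset (Sym2 V)) : Cov4 E ∅ :=
  ⟨∅, empty_subset _, fun v => Or.inl (by simp [dg]), fun v hv => absurd hv (notMem_empty v),
    fun x y _ h => absurd h (notMem_empty _)⟩

/-- THE EXCHANGE LEMMA, with a connected set in place of the path. -/
theorem exch4_set {E : Finset (Sym2 V)} (hE : ∀ e ∈ E, ¬ e.IsDiag) {A U : Finset V} {b d : V}
    (hb : Cov4 E (insert b A)) (hd : Cov4 E (insert d A)) (hbU : b ∈ U) (hdU : d ∈ U)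
    (hU : ¬ Disc U E) (hin : ∀ u ∈ U, u ≠ b → u ≠ d → ¬ Cov4 E (insert u A)) :
    Cov4 E (insert b (insert d A)) := by
  obtain ⟨p, hp, hpU⟩ := path_of_not_disc hU hbU hdU
  exact exch4 hE hb hd p hp fun r hr => hin r (hpU r hr)

theorem cov4_of_path {E : Finset (Sym2 V)} (hE : ∀ e ∈ E, ¬ e.IsDiag) {v u w : V}
    (hvu : s(v, u) ∈ E) (hvw : s(v, w) ∈ E) (huw : u ≠ w) (hn : s(u, w) ∉ E)
    (p : (SimpleGraph.fromEdgeSet (E : Set (Sym2 V))).Walk u w) (hp : p.IsPath)
    (hpv : ∀ r ∈ p.support, r ≠ v) : Cov4 E {v} := by
  have hu : v ≠ u := fun e => hE _ hvu (by simpa using e)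
  have hw : v ≠ w := fun e => hE _ hvw (by simpa using e)
  have hn1 : s(v, w) ∉ (∅ : Finset (Sym2 V)) := notMem_empty _
  have hn2 : s(v, u) ∉ insert s(v, w) (∅ : Finset (Sym2 V)) := by
    intro h
    rcases mem_insert.1 h with h | h
    · exact s_ne huw h
    · exact notMem_empty _ h
  have key : ∀ x, dg (insert s(v, u) (insert s(v, w) (∅ : Finset (Sym2 V)))) x =
      (if x = v ∨ x = w then 1 else 0) + if x = v ∨ x = u then 1 else 0 := by
    intro x
    rw [dg_insert hn2, dg_insert hn1]
    simp [dg]
  have hv2 : dg (insert s(v, u) (insert s(v, w) (∅ : Finset (Sym2 V)))) v = 2 := by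
    rw [key]; simp
  have hFE : insert s(v, u) (insert s(v, w) (∅ : Finset (Sym2 V))) ⊆ E :=
    insert_subset hvu (insert_subset hvw (empty_subset _))
  have hT : TF (insert s(v, u) (insert s(v, w) (∅ : Finset (Sym2 V)))) := by
    refine tf_insert (F := insert s(v, w) ∅) ?_ ?_ ?_ hu
    · refine tf_insert (F := ∅) (fun x y z h => absurd h (notMem_empty _)) ?_ ?_ hw
      · intro t _ _ h
        exact absurd h (notMem_empty _)
      · intro x y h
        exact absurd h (notMem_empty _)
    · intro t _ htu _ h2
      rcases mem_insert.1 h2 with h | h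
      · rw [Sym2.eq_iff] at h
        rcases h with h | h
        · exact huw h.2
        · exact hu h.2.symm
      · exact notMem_empty _ h
    · intro x y h e
      exact hE s(x, y) (hFE (mem_insert_of_mem h)) (by simpa using e)
  obtain ⟨F', h1, h2, h0, h4, h5, h6⟩ := addPath4 hE p hp (insert s(v, u) (insert s(v, w) ∅))
    hFE huw (fun h => hn (hFE h))
    (by rw [key]; simp [Ne.symm hu, huw])
    (by rw [key]; simp [Ne.symm hw, Ne.symm huw]) hT (fun t _ _ h => hn h)
    (by
      intro x hx1 hx2
      rw [key]
      by_cases hx : x = v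
      · subst hx; simp
      · simp [hx, hx1, hx2])
    (by
      intro r hr hr1 hr2
      rw [key]
      simp [hpv r hr, hr1, hr2])
  refine ⟨F', h1, h2, fun x hx => ?_, h0⟩
  rw [mem_singleton.1 hx]
  exact h6 v hv2

/-- Every vertex of a 2-connected graph with at least four vertices is on a cycle of length at
least four. -/
theorem cov4_vertex [Fintype V] {E : Finset (Sym2 V)} (hE : ∀ e ∈ E, ¬ e.IsDiag)
    (h4 : 4 ≤ Fintype.card V) (hc : ¬ Disc univ E) (hcut : ∀ z, ¬ Disc (univ.erase z) E) (v : V) :
    Cov4 E {v} := by
  classical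
  obtain ⟨u, hu⟩ : ∃ u, s(v, u) ∈ E := by
    by_contra hcon
    push Not at hcon
    refine hc ⟨{v}, univ.erase v, singleton_nonempty v, ?_, ?_, ?_, ?_⟩
    · rw [← card_pos, card_erase_of_mem (mem_univ _), card_univ]
      omega
    · simp
    · ext x
      simp
    · intro x hx y _
      rw [mem_singleton.1 hx]
      exact hcon y
  have huv : v ≠ u := fun e => hE _ hu (by simpa using e)
  obtain ⟨w, hwu, hw⟩ : ∃ w, w ≠ u ∧ s(v, w) ∈ E := by
    by_contra hcon
    push Not at hcon
    refine hcut u ⟨{v}, (univ.erase u).erase v, singleton_nonempty v, ?_, ?_, ?_, ?_⟩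
    · rw [← card_pos, card_erase_of_mem (mem_erase.2 ⟨huv, mem_univ _⟩),
        card_erase_of_mem (mem_univ _), card_univ]
      omega
    · simp
    · ext x
      simp only [mem_union, mem_singleton, mem_erase, mem_univ, and_true]
      constructor
      · rintro (rfl | h)
        · exact huv
        · exact h.2
      · intro h
        by_cases hx : x = v
        · exact Or.inl hx
        · exact Or.inr ⟨hx, h⟩
    · intro x hx y hy
      rw [mem_singleton.1 hx]
      rw [mem_erase, mem_erase] at hy
      exact hcon y hy.2.1
  have hwv : v ≠ w := fun e => hE _ hw (by simpa using e)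
  have hmem : ∀ {x : V}, v ≠ x → x ∈ univ.erase v := fun h => mem_erase.2 ⟨Ne.symm h, mem_univ _⟩
  by_cases huw : s(u, w) ∈ E
  swap
  · obtain ⟨p, hp, hpU⟩ := path_of_not_disc (hcut v) (hmem huv) (hmem hwv)
    exact cov4_of_path hE hu hw (Ne.symm hwu) huw p hp fun r hr => (mem_erase.1 (hpU r hr)).1
  by_cases ht : ∃ t, t ≠ u ∧ t ≠ w ∧ s(v, t) ∈ E
  · obtain ⟨t, htu, htw, ht⟩ := ht
    have hvt : v ≠ t := fun e => hE _ ht (by simpa using e)
    by_cases htu' : s(t, u) ∈ E
    · refine cov4_edges (erase_subset s(t, w) E) (cov4_of_path (u := t) (w := w)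
        (fun e he => hE e (mem_of_mem_erase he)) ?_ ?_ htw (notMem_erase _ _) ?_ ?_ ?_)
      · refine mem_erase.2 ⟨?_, ht⟩
        rw [swp v t]
        exact s_ne hwv
      · refine mem_erase.2 ⟨?_, hw⟩
        rw [swp v w, swp t w]
        exact s_ne hvt
      · refine SimpleGraph.Walk.cons (v := u) ?_ (SimpleGraph.Walk.cons (v := w) ?_
          SimpleGraph.Walk.nil)
        · rw [SimpleGraph.fromEdgeSet_adj]
          refine ⟨?_, htu⟩
          exact_mod_cast mem_erase.2 ⟨s_ne (Ne.symm hwu), htu'⟩
        · rw [SimpleGraph.fromEdgeSet_adj]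
          refine ⟨?_, Ne.symm hwu⟩
          refine Finset.mem_coe.2 (mem_erase.2 ⟨?_, huw⟩)
          rw [swp u w, swp t w]
          exact s_ne (Ne.symm htu)
      · simp [SimpleGraph.Walk.cons_isPath_iff, htu, htw, Ne.symm hwu]
      · intro r hr
        simp only [SimpleGraph.Walk.support_cons, SimpleGraph.Walk.support_nil, List.mem_cons,
          List.not_mem_nil, or_false] at hr
        rcases hr with rfl | rfl | rfl
        · exact Ne.symm hvt
        · exact Ne.symm huv
        · exact Ne.symm hwv
    · obtain ⟨p, hp, hpU⟩ := path_of_not_disc (hcut v) (hmem hvt) (hmem huv)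
      exact cov4_of_path hE ht hu htu htu' p hp fun r hr => (mem_erase.1 (hpU r hr)).1
  · push Not at ht
    have hnd : ¬ Disc (univ.erase v) (E.erase s(u, w)) := by
      rintro ⟨C, D, hC, hD, hCD, hU, hno⟩
      -- wlog `u ∈ C`, `w ∈ D`
      have hside : ∀ C D : Finset V, C.Nonempty → D.Nonempty → Disjoint C D →
          C ∪ D = univ.erase v → (∀ x ∈ C, ∀ y ∈ D, s(x, y) ∉ E.erase s(u, w)) → u ∈ C → w ∈ D →
          False := by
        intro C D hC hD hCD hU hno huC hwD
        have hvC : v ∉ C := fun h => by
          have h1 := mem_union_left D h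
          rw [hU] at h1
          exact notMem_erase _ _ h1
        have hvD : v ∉ D := fun h => by
          have h1 := mem_union_right C h
          rw [hU] at h1
          exact notMem_erase _ _ h1
        have huD : u ∉ D := fun h => disjoint_left.1 hCD huC h
        have hwC : w ∉ C := fun h => disjoint_left.1 hCD h hwD
        have hcard : C.card + D.card = Fintype.card V - 1 := by
          rw [← card_union_of_disjoint hCD, hU, card_erase_of_mem (mem_univ _), card_univ]
        have hno' : ∀ x ∈ C, ∀ y ∈ D, (x ≠ u ∨ y ≠ w) → s(x, y) ∉ E := by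
          intro x hx y hy hxy h
          refine hno x hx y hy (mem_erase.2 ⟨?_, h⟩)
          intro e
          rw [Sym2.eq_iff] at e
          rcases e with e | e
          · rcases hxy with h1 | h1
            · exact h1 e.1
            · exact h1 e.2
          · exact hwC (e.1 ▸ hx)
        have hv3 : ∀ x, x ≠ u → x ≠ w → s(v, x) ∉ E := fun x h1 h2 => ht x h1 h2
        by_cases h2 : 2 ≤ C.card
        · refine hcut u ⟨C.erase u, insert v D, ?_, insert_nonempty _ _, ?_, ?_, ?_⟩
          · rw [← card_pos, card_erase_of_mem huC]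
            omega
          · rw [disjoint_left]
            intro x hx hx'
            rcases mem_insert.1 hx' with rfl | hx'
            · exact hvC (mem_of_mem_erase hx)
            · exact disjoint_left.1 hCD (mem_of_mem_erase hx) hx'
          · ext x
            have h3 : x ∈ C ∪ D ↔ x ≠ v := by rw [hU]; simp
            rw [mem_union] at h3
            simp only [mem_union, mem_erase, mem_insert, mem_univ, and_true]
            constructor
            · rintro (h | rfl | h)
              · exact h.1
              · exact huv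
              · rintro rfl
                exact huD h
            · intro hx
              by_cases hxv : x = v
              · exact Or.inr (Or.inl hxv)
              · rcases h3.2 hxv with h | h
                · exact Or.inl ⟨hx, h⟩
                · exact Or.inr (Or.inr h)
          · intro x hx y hy
            have hx1 := (mem_erase.1 hx).1
            have hx2 := (mem_erase.1 hx).2
            rcases mem_insert.1 hy with rfl | hy
            · rw [swp x y]
              exact hv3 x hx1 (fun e => hwC (e ▸ hx2))
            · exact hno' x hx2 y hy (Or.inl hx1)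
        · refine hcut w ⟨D.erase w, insert v C, ?_, insert_nonempty _ _, ?_, ?_, ?_⟩
          · rw [← card_pos, card_erase_of_mem hwD]
            omega
          · rw [disjoint_left]
            intro x hx hx'
            rcases mem_insert.1 hx' with rfl | hx'
            · exact hvD (mem_of_mem_erase hx)
            · exact disjoint_left.1 hCD hx' (mem_of_mem_erase hx)
          · ext x
            have h3 : x ∈ C ∪ D ↔ x ≠ v := by rw [hU]; simp
            rw [mem_union] at h3
            simp only [mem_union, mem_erase, mem_insert, mem_univ, and_true]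
            constructor
            · rintro (h | rfl | h)
              · exact h.1
              · exact hwv
              · rintro rfl
                exact hwC h
            · intro hx
              by_cases hxv : x = v
              · exact Or.inr (Or.inl hxv)
              · rcases h3.2 hxv with h | h
                · exact Or.inr (Or.inr h)
                · exact Or.inl ⟨hx, h⟩
          · intro x hx y hy
            have hx1 := (mem_erase.1 hx).1
            have hx2 := (mem_erase.1 hx).2
            rcases mem_insert.1 hy with rfl | hy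
            · rw [swp x y]
              exact hv3 x (fun e => huD (e ▸ hx2)) hx1
            · rw [swp x y]
              exact hno' y hy x hx2 (Or.inr hx1)
      have huU : u ∈ C ∪ D := by rw [hU]; exact hmem huv
      have hwU : w ∈ C ∪ D := by rw [hU]; exact hmem hwv
      have hno2 : ∀ x ∈ D, ∀ y ∈ C, s(x, y) ∉ E.erase s(u, w) := by
        intro x hx y hy
        rw [swp x y]
        exact hno y hy x hx
      have hsame : (u ∈ C ∧ w ∈ C) ∨ (u ∈ D ∧ w ∈ D) → False := by
        intro hs
        refine hcut v ⟨C, D, hC, hD, hCD, hU, ?_⟩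
        intro x hx y hy h
        refine hno x hx y hy (mem_erase.2 ⟨?_, h⟩)
        intro e
        rw [Sym2.eq_iff] at e
        rcases e with ⟨rfl, rfl⟩ | ⟨rfl, rfl⟩
        · rcases hs with hs | hs
          · exact disjoint_left.1 hCD hs.2 hy
          · exact disjoint_left.1 hCD hx hs.1
        · rcases hs with hs | hs
          · exact disjoint_left.1 hCD hs.1 hy
          · exact disjoint_left.1 hCD hx hs.2
      rcases mem_union.1 huU with h1 | h1
      · rcases mem_union.1 hwU with h2 | h2
        · exact hsame (Or.inl ⟨h1, h2⟩)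
        · exact hside C D hC hD hCD hU hno h1 h2
      · rcases mem_union.1 hwU with h2 | h2
        · exact hside D C hD hC hCD.symm (by rw [union_comm]; exact hU) hno2 h1 h2
        · exact hsame (Or.inr ⟨h1, h2⟩)
    obtain ⟨p, hp, hpU⟩ := path_of_not_disc hnd (hmem huv) (hmem hwv)
    refine cov4_edges (erase_subset s(u, w) E) (cov4_of_path (u := u) (w := w)
      (fun e he => hE e (mem_of_mem_erase he)) ?_ ?_ (Ne.symm hwu) (notMem_erase _ _) p hp
      fun r hr => (mem_erase.1 (hpU r hr)).1)
    · refine mem_erase.2 ⟨?_, hu⟩
      rw [swp v u]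
      exact s_ne hwv
    · refine mem_erase.2 ⟨?_, hw⟩
      rw [swp v w, swp u w]
      exact s_ne huv

end H4TF
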